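import Pool.Agent.TH371.Apy.FinalB

/-!
# The zeta(3) numbers are infinitely log-convex
-/

set_option autoImplicit false

namespace Pool.Agent.TH371.Apy

open MeasureTheory Set Real Filter Topology

lemma mem_Ioo_of_lt {y : ℝ} (h0 : 0 < y) (h : y < 173 / 100) : y ∈ Ioo (0 : ℝ) (173 / 100) := ⟨h0, h⟩

lemma A_bds {y : ℝ} (hy : y ∈ Ioc (0 : ℝ) (173 / 100)) :
    0 < aA y ∧ aA y * (4 * √y) ≤ 1 ∧ 0 ≤ bA y ∧ bA y * √y ≤ 0.4375 := by
  have h0 := qA_pos hy.1 hy.2
  have h1 := qA_lin hy.1.le hy.2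
  have h2 := qA_le hy.1.le hy.2
  have s0 : 0 < √(qA y) := Real.sqrt_pos.2 h0
  have s2 : 4 * √y ≤ √(qA y) := by
    apply Real.le_sqrt_of_sq_le
    rw [mul_pow, Real.sq_sqrt hy.1.le]
    linarith
  have e : bA y = (28 - qA y) / 16 * aA y := by
    unfold bA aA; field_simp
  have ha : 0 < aA y := by unfold aA; positivity
  have h3 : aA y * (4 * √y) ≤ 1 := by
    unfold aA
    rw [one_div, inv_mul_le_iff₀ s0]
    linarith
  refine ⟨ha, h3, ?_, ?_⟩
  · rw [e]
    apply mul_nonneg (by linarith) ha.le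
  · rw [e]
    have : aA y * √y ≤ 1 / 4 := by linarith
    have h5 : 0 ≤ aA y * √y := by positivity
    nlinarith

lemma aA_cont : ContinuousOn aA (Ioc 0 (173 / 100)) := by
  unfold aA
  refine continuousOn_const.div (Real.continuous_sqrt.comp_continuousOn qA_cont.continuousOn) ?_
  intro y hy
  exact (Real.sqrt_pos.2 (qA_pos hy.1 hy.2)).ne'

lemma bA_cont : ContinuousOn bA (Ioc 0 (173 / 100)) := by
  unfold bA
  refine (continuousOn_const.sub qA_cont.continuousOn).div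
    (continuousOn_const.mul (Real.continuous_sqrt.comp_continuousOn qA_cont.continuousOn)) ?_
  intro y hy
  have := (Real.sqrt_pos.2 (qA_pos hy.1 hy.2)).ne'
  positivity

lemma rpow_half_inv {x : ℝ} (hx : 0 < x) : x ^ (-(1 / 2) : ℝ) = 1 / √x := by
  rw [Real.rpow_neg hx.le, ← Real.sqrt_eq_rpow, one_div]

lemma int_of_bd {a : ℝ → ℝ} {C y : ℝ} (hy : y ∈ Ioc (0 : ℝ) (173 / 100))
    (hc : ContinuousOn a (Ioc 0 (173 / 100))) (h0 : ∀ x ∈ Ioc (0 : ℝ) (173 / 100), 0 ≤ a x)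
    (hb : ∀ x ∈ Ioc (0 : ℝ) (173 / 100), a x * √x ≤ C) :
    IntervalIntegrable a volume 0 y ∧ (∫ x in (0 : ℝ)..y, a x) ≤ C * (2 * √y) := by
  have hpI : IntervalIntegrable (fun x : ℝ => x ^ (-(1 / 2) : ℝ)) volume 0 y :=
    intervalIntegral.intervalIntegrable_rpow' (by norm_num)
  have hg : IntervalIntegrable (fun x : ℝ => C * x ^ (-(1 / 2) : ℝ)) volume 0 y :=
    hpI.const_mul C
  have hle : ∀ x ∈ Ioc (0 : ℝ) y, a x ≤ C * x ^ (-(1 / 2) : ℝ) := by
    intro x hx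
    have hx' : x ∈ Ioc (0 : ℝ) (173 / 100) := ⟨hx.1, hx.2.trans hy.2⟩
    have h1 := hb x hx'
    have s0 : 0 < √x := Real.sqrt_pos.2 hx.1
    rw [rpow_half_inv hx.1, mul_one_div, le_div_iff₀ s0]
    exact h1
  have hI : IntervalIntegrable a volume 0 y := by
    refine hg.mono_fun ?_ ?_
    · rw [uIoc_of_le hy.1.le]
      exact (hc.mono fun x hx => ⟨hx.1, hx.2.trans hy.2⟩).aestronglyMeasurable measurableSet_Ioc
    · rw [Filter.EventuallyLE, ae_restrict_iff' measurableSet_uIoc]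
      refine Filter.Eventually.of_forall fun x hx => ?_
      rw [uIoc_of_le hy.1.le] at hx
      have h1 := hle x hx
      have h2 := h0 x ⟨hx.1, hx.2.trans hy.2⟩
      rw [Real.norm_eq_abs, Real.norm_eq_abs, abs_of_nonneg h2]
      exact h1.trans (le_abs_self _)
  refine ⟨hI, ?_⟩
  have h1 : (∫ x in (0 : ℝ)..y, a x) ≤ ∫ x in (0 : ℝ)..y, C * x ^ (-(1 / 2) : ℝ) := by
    rw [intervalIntegral.integral_of_le hy.1.le, intervalIntegral.integral_of_le hy.1.le]
    refine setIntegral_mono_on ?_ ?_ measurableSet_Ioc hle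
    · exact (intervalIntegrable_iff_integrableOn_Ioc_of_le hy.1.le).1 hI
    · exact (intervalIntegrable_iff_integrableOn_Ioc_of_le hy.1.le).1 hg
  refine h1.trans (le_of_eq ?_)
  rw [intervalIntegral.integral_const_mul, integral_rpow (Or.inl (by norm_num))]
  norm_num
  left
  rw [← Real.sqrt_eq_rpow]
  ring

lemma existsA : (∃ f h : ℝ → ℝ, Sys aA bA f h (173 / 100) 1 0) ∧
    ∃ g k : ℝ → ℝ, Sys aA bA g k (173 / 100) 0 1 := by
  have mem1 : (173 / 100 : ℝ) ∈ Ioc (0 : ℝ) (173 / 100) := ⟨by norm_num, le_rfl⟩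
  have hb := fun y (hy : y ∈ Ioc (0 : ℝ) (173 / 100)) => int_of_bd (C := 0.4375) hy bA_cont
    (fun x hx => (A_bds hx).2.2.1) (fun x hx => (A_bds hx).2.2.2)
  have ha := int_of_bd (C := 0.25) mem1 aA_cont
    (fun x hx => (A_bds hx).1.le) (fun x hx => by linarith [(A_bds hx).2.1])
  have := Pool.Agent.TH615.Apy.exists_sys (173 / 100) 0.22 (by norm_num) aA bA aA_cont bA_cont
    (fun x hx => (A_bds hx).1.le) (fun x hx => (A_bds hx).2.2.1) (hb _ mem1).1 ?_ (by norm_num)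
  · exact ⟨this.1, this.2 ha.1⟩
  · intro y hy
    have h1 := (hb y hy).2
    have h2 := A_bds hy
    calc aA y * ∫ x in (0 : ℝ)..y, bA x ≤ aA y * (0.4375 * (2 * √y)) := by
          have := h2.1
          gcongr
      _ = (aA y * (4 * √y)) * 0.21875 := by ring
      _ ≤ 1 * 0.21875 := by
          have := h2.2.1
          gcongr
      _ ≤ 0.22 := by norm_num

lemma quad_le {z : ℝ} (hz : 0 < z) : 18.5 * z ^ 2 + 11.5 * z + 5 ≤ 20 * (z + 1 / 2) ^ 2 := by
  nlinarith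

lemma half_le_sqrt {y c : ℝ} (c0 : 0 < c) (c1 : c ≤ 1) (hy : c ≤ y) : c ≤ √y := by
  apply Real.le_sqrt_of_sq_le
  nlinarith

set_option maxHeartbeats 4000000 in
theorem infA : ∀ k m : ℕ, 0 < (L^[k]) (fun n => ((apA n : ℤ) : ℝ)) m := by
  obtain ⟨⟨f, h, H⟩, ⟨g, k, G⟩⟩ := existsA
  have hf1 : ∀ y ∈ Icc (0 : ℝ) (173 / 100), 1 ≤ f y := H.fge
  have hg0 : ∀ y ∈ Icc (0 : ℝ) (173 / 100), 0 ≤ g y := G.fge
  have hpos : ∀ y ∈ Ioo (0 : ℝ) (173 / 100), 0 < f y * g y := fun y hy =>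
    mul_pos (by linarith [hf1 y ⟨hy.1.le, hy.2.le⟩]) (A_g_pos G hy)
  have hcont : ContinuousOn (fun y => f y * g y) (Icc 0 (173 / 100)) := H.cf.mul G.cf
  obtain ⟨q0, q1, q2, q3, q4, q5, s0, s1, s2, r0, r1, d0⟩ := A_aux mem17
  obtain ⟨a0, a1, a2, b0, b1, b2⟩ := aA_bd mem17
  set F := f (17 / 10) with hF
  set Gv := g (17 / 10) with hGv
  set Kv := k (17 / 10) with hKv
  set Hv := h (17 / 10) with hHv
  set q := qA (17 / 10) with hq
  set a := aA (17 / 10) with ha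
  have hF1 : 1 ≤ F := hf1 _ ⟨by norm_num, by norm_num⟩
  have hFe : F ≤ exp (0.22 * (17 / 10)) := A_f_le H _ mem17
  have hK1 : 1 ≤ Kv := A_k_pos G mem17
  have hKe : Kv ≤ exp (0.22 * (17 / 10)) := A_k_le G _ mem17
  have hG0 : 0 < Gv := A_g_pos G mem17
  have hsq : √(17 / 10 : ℝ) ≤ 1.304 := by
    rw [Real.sqrt_le_left (by norm_num)]; norm_num
  have hG1 : Gv ≤ 0.66 * Kv := by
    have := A_g_le G mem17
    calc Gv ≤ 0.5 * √(17 / 10) * Kv := this
      _ ≤ 0.5 * 1.304 * Kv := by gcongr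
      _ ≤ 0.66 * Kv := by gcongr; norm_num
  have hH0 : 0 ≤ Hv := A_h_nn H mem17
  have hH1 : Hv ≤ 1.15 * F := by
    have := A_h_le H _ mem17
    calc Hv ≤ 0.875 * √(17 / 10) * F := this
      _ ≤ 0.875 * 1.304 * F := by gcongr
      _ ≤ 1.15 * F := by gcongr; norm_num
  have hq' : qA' (17 / 10) ≤ 6.3 := by
    unfold qA'
    have hexp : exp (-(17 / 10 : ℝ)) ≤ 0.185 := by
      rw [Real.exp_neg]
      have h1 := Real.sum_le_exp_of_nonneg (x := 17 / 10) (by norm_num) 8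
      have h2 : (5.46 : ℝ) ≤ exp (17 / 10) := by
        refine le_trans ?_ h1
        norm_num [Finset.sum_range_succ, Nat.factorial]
      rw [inv_le_comm₀ (exp_pos _) (by norm_num)]
      refine le_trans ?_ h2
      norm_num
    have h2 := tA_ub
    have h3 := tA_pos
    have h4 : tA * exp (-(17 / 10 : ℝ)) ≤ 33.9706 * 0.185 := by gcongr
    have h5 : 0 ≤ exp (17 / 10 : ℝ) / tA := by positivity
    linarith
  have hyah : a * Hv ≤ 0.21875 * F := A_yah H mem17
  have hp1 : Gv ≤ 2 * (17 / 10) * (a * Kv) := A_p_ge G _ mem17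
  have hp2 : 17 / 10 * (a * Kv) ≤ Gv := A_p_le G _ mem17
  -- the extension
  have hPhi : Phi0 (3 / 2) (17 / 10) (fun y => f y * g y)
      (fun y => aA y * h y * g y + f y * (aA y * k y)) =
      (17 / 10) ^ 2 * (a * Hv * Gv + F * (a * Kv)) / (F * Gv) - 1 / 2 * (17 / 10) := by
    show (17 / 10 : ℝ) ^ 2 * (a * Hv * Gv + F * (a * Kv)) / (F * Gv) - (3 / 2 - 1) * (17 / 10) = _
    ring
  have e1 : (17 / 10 : ℝ) ^ 2 * (a * Hv * Gv + F * (a * Kv)) / (F * Gv) =
      (17 / 10) * (17 / 10 * (a * Hv / F) + 17 / 10 * (a * Kv) / Gv) := by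
    field_simp
  have hp1' : 1 / 2 ≤ 17 / 10 * (a * Kv) / Gv := by rw [le_div_iff₀ hG0]; linarith
  have hp2' : 17 / 10 * (a * Kv) / Gv ≤ 1 := by rw [div_le_one hG0]; exact hp2
  have hah : a * Hv / F ≤ 0.21875 := by rw [div_le_iff₀ (by linarith)]; exact hyah
  have hah0 : 0 ≤ a * Hv / F := by positivity
  have hPhi0 : 0 ≤ Phi0 (3 / 2) (17 / 10) (fun y => f y * g y)
      (fun y => aA y * h y * g y + f y * (aA y * k y)) := by
    rw [hPhi, e1]; linarith
  have hPhi1 : Phi0 (3 / 2) (17 / 10) (fun y => f y * g y)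
      (fun y => aA y * h y * g y + f y * (aA y * k y)) / (17 / 10) ≤ 0.88 := by
    rw [hPhi, e1, div_le_iff₀ (by norm_num)]; linarith
  have hmono : MonotoneOn (fun y => y ^ 2 * (aA y * h y * g y + f y * (aA y * k y)) /
      (f y * g y) - (3 / 2 - 1) * y) (Ioc 0 (17 / 10)) := by
    refine ((A_mono_f H).add (A_mono_g G)).congr ?_
    intro y hy
    have hy' : y ∈ Ioo (0 : ℝ) (173 / 100) := ⟨hy.1, by linarith [hy.2]⟩
    have h1 := A_f_pos H hy'
    have h2 := A_g_pos G hy'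
    have h3 : f y ≠ 0 := by positivity
    field_simp
    ring
  obtain ⟨b, hbg, hbc⟩ := extend_good (s := 3 / 2) (y0 := 17 / 10) (y1 := 173 / 100)
    (ψ := fun y => f y * g y)
    (ψ' := fun y => aA y * h y * g y + f y * (aA y * k y)) (by norm_num) (by norm_num)
    (by norm_num) (by norm_num) hcont hpos
    (fun y hy => (H.df y hy).mul (G.df y hy)) hmono hPhi0
  refine Pool.Agent.TH590.Apy.assembly
    (fun K m hK hm => Pool.Agent.TH416.ApyProd.prod_small K m hK hm)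
    (fun m hm => Pool.Agent.TH416.ApyProd.prod_small_eleven m hm) _ b hbg ?_
    Pool.Agent.TH126.Apy.finA
  have hexp1 : ∀ n : ℝ, exp (-((n + 3 / 2) * (17 / 10))) =
      exp (-0.85) * exp (-(17 / 10) * (n + 1)) := by
    intro n; rw [← Real.exp_add]; congr 1; ring
  have hFK : F * Kv * exp (-0.85) ≤ 1 := by
    calc F * Kv * exp (-0.85) ≤ exp (0.22 * (17 / 10)) * exp (0.22 * (17 / 10)) * exp (-0.85) := by
          gcongr
      _ = exp (0.22 * (17 / 10) + 0.22 * (17 / 10) + -0.85) := by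
          rw [Real.exp_add, Real.exp_add]
      _ ≤ 1 := by rw [Real.exp_le_one_iff]; norm_num
  have hFK0 : 0 < F * Kv := by positivity
  have hFG : F * Gv ≤ 0.66 * (F * Kv) := by
    calc F * Gv ≤ F * (0.66 * Kv) := by gcongr
      _ = _ := by ring
  have hHG : Hv * Gv ≤ 0.76 * (F * Kv) := by
    calc Hv * Gv ≤ (1.15 * F) * (0.66 * Kv) := by gcongr
      _ = 0.759 * (F * Kv) := by ring
      _ ≤ _ := by gcongr; norm_num
  have hHK : Hv * Kv ≤ 1.15 * (F * Kv) := by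
    calc Hv * Kv ≤ (1.15 * F) * Kv := by gcongr
      _ = _ := by ring
  have hsqq : √q ≤ 5.3 := by
    rw [Real.sqrt_le_left (by norm_num)]; norm_num; linarith
  refine Pool.Agent.TH615.Apy.close_of_rec 3 (by norm_num) (-1) tA (by norm_num)
    (by linarith [tA_lb])
    (fun n => 34 * ((n : ℝ) + 1) ^ 3 + 51 * ((n : ℝ) + 1) ^ 2 + 27 * ((n : ℝ) + 1) + 5) _
    (fun n => ∫ y in (0 : ℝ)..(17 / 10), exp (-(((n : ℝ) + 1 / 2) * y)) * (f y * g y)) b
    (fun n => exp (-(((n : ℝ) + 3 / 2) * (17 / 10))) *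
        (((n : ℝ) + 3 / 2) ^ 2 * qA (17 / 10) * (f (17 / 10) * g (17 / 10)) +
          ((n : ℝ) + 3 / 2) * √(qA (17 / 10)) *
            (h (17 / 10) * g (17 / 10) + f (17 / 10) * k (17 / 10)) -
          1 / 2 * ((n : ℝ) + 3 / 2) * qA' (17 / 10) * (f (17 / 10) * g (17 / 10)) -
          (28 - qA (17 / 10)) / 8 * (f (17 / 10) * g (17 / 10)) +
          2 * h (17 / 10) * k (17 / 10))) ?_ ?_ ?_ ?_ ?_ ?_ ?_ ?_
  · have : apA 0 = 1 := by decide
    rw [this]; norm_num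
  · intro n
    have := growA n
    exact_mod_cast this
  · intro n
    have := recA n
    have h2 : (((n : ℤ) + 2) ^ 3 * apA (n + 2) : ℤ) =
      (34 * ((n : ℤ) + 1) ^ 3 + 51 * ((n : ℤ) + 1) ^ 2 + 27 * ((n : ℤ) + 1) + 5) * apA (n + 1) +
      (-1) * ((n : ℤ) + 1) ^ 3 * apA n := by rw [this]; ring
    exact_mod_cast h2
  · intro n
    have := Pool.Agent.TH615.Apy.recP_A H G n
    exact this
  · intro n
    have hn : (0 : ℝ) ≤ n := Nat.cast_nonneg n
    have c1 : 1 / ((n : ℝ) + 1) ≤ 1 := by rw [div_le_one (by linarith)]; linarith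
    have c0 : 0 < 1 / (2 * ((n : ℝ) + 1)) := by positivity
    have c3 : 1 / (2 * ((n : ℝ) + 1)) ≤ 1 := by
      rw [div_le_one (by linarith)]; linarith
    have h1 := int_lower (ψ := fun y => f y * g y) hcont
      (fun y hy => mul_nonneg (by linarith [hf1 y hy]) (hg0 y hy))
      (w := 0.34 * (1 / (2 * ((n : ℝ) + 1)))) (by positivity) n (by
        intro y hy
        have hy' : y ∈ Ioo (0 : ℝ) (173 / 100) := ⟨c0.trans_le hy.1, by linarith [hy.2]⟩
        have h2 := A_g_ge G y hy'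
        have h3 := A_f_pos H hy'
        have h4 : 1 / (2 * ((n : ℝ) + 1)) ≤ √y := half_le_sqrt c0 c3 hy.1
        have h5 := A_g_pos G hy'
        calc 0.34 * (1 / (2 * ((n : ℝ) + 1))) ≤ 0.34 * √y := by gcongr
          _ ≤ g y := h2
          _ = 1 * g y := (one_mul _).symm
          _ ≤ f y * g y := by gcongr)
    have h2 : 0 < (n : ℝ) + 1 := by linarith
    have h3 : 100 * ((n : ℝ) + 1) ^ 2 * ((1 / (2 * ((n : ℝ) + 1))) *
        (0.36 * (0.34 * (1 / (2 * ((n : ℝ) + 1)))))) = 3.06 := by field_simp; norm_num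
    have h4 : 100 * ((n : ℝ) + 1) ^ 2 * ((1 / (2 * ((n : ℝ) + 1))) *
        (0.36 * (0.34 * (1 / (2 * ((n : ℝ) + 1)))))) ≤
        100 * ((n : ℝ) + 1) ^ 2 *
          ∫ y in (0 : ℝ)..(17 / 10), exp (-(((n : ℝ) + 1 / 2) * y)) * (f y * g y) := by gcongr
    rw [h3] at h4
    linarith
  · intro n
    have hn : (0 : ℝ) ≤ n := Nat.cast_nonneg n
    rw [hexp1, ← hF, ← hGv, ← hKv, ← hHv, ← hq]
    set z : ℝ := (n : ℝ) + 3 / 2 with hz
    have hz0 : 0 < z := by positivity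
    have h1 : |z ^ 2 * q * (F * Gv) + z * √q * (Hv * Gv + F * Kv) -
        1 / 2 * z * qA' (17 / 10) * (F * Gv) - (28 - q) / 8 * (F * Gv) + 2 * Hv * Kv| ≤
        (F * Kv) * (18.5 * z ^ 2 + 11.5 * z + 5) := by
      have k1 : 0 ≤ z ^ 2 * q * (F * Gv) := by positivity
      have k2 : z ^ 2 * q * (F * Gv) ≤ z ^ 2 * 27.9 * (0.66 * (F * Kv)) := by gcongr
      have k3 : 0 ≤ z * √q * (Hv * Gv + F * Kv) := by positivity
      have k4 : z * √q * (Hv * Gv + F * Kv) ≤ z * 5.3 * (0.76 * (F * Kv) + F * Kv) := by gcongr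
      have k5 : 0 ≤ 1 / 2 * z * qA' (17 / 10) * (F * Gv) := by positivity
      have k6 : 1 / 2 * z * qA' (17 / 10) * (F * Gv) ≤ 1 / 2 * z * 6.3 * (0.66 * (F * Kv)) := by
        gcongr
      have k7 : 0 ≤ (28 - q) / 8 * (F * Gv) := by
        apply mul_nonneg (by linarith) (by positivity)
      have k8 : (28 - q) / 8 * (F * Gv) ≤ 28 / 8 * (0.66 * (F * Kv)) := by
        gcongr
        linarith
      have k9 : 0 ≤ 2 * Hv * Kv := by positivity
      have k10 : 2 * Hv * Kv ≤ 2.3 * (F * Kv) := by linarith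
      have k11 : 0 ≤ (F * Kv) * z := by positivity
      have k12 : 0 ≤ (F * Kv) * z ^ 2 := by positivity
      rw [abs_le]
      constructor <;> linarith
    rw [abs_mul, abs_of_pos (by positivity)]
    have hz5 : (n : ℝ) + 2 = z + 1 / 2 := by rw [hz]; ring
    calc exp (-0.85) * exp (-(17 / 10) * ((n : ℝ) + 1)) *
          |z ^ 2 * q * (F * Gv) + z * √q * (Hv * Gv + F * Kv) -
          1 / 2 * z * qA' (17 / 10) * (F * Gv) - (28 - q) / 8 * (F * Gv) + 2 * Hv * Kv|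
        ≤ exp (-0.85) * exp (-(17 / 10) * ((n : ℝ) + 1)) *
          ((F * Kv) * (18.5 * z ^ 2 + 11.5 * z + 5)) := by gcongr
      _ = (F * Kv * exp (-0.85)) * ((18.5 * z ^ 2 + 11.5 * z + 5) *
          exp (-(17 / 10) * ((n : ℝ) + 1))) := by ring
      _ ≤ 1 * ((18.5 * z ^ 2 + 11.5 * z + 5) * exp (-(17 / 10) * ((n : ℝ) + 1))) := by gcongr
      _ ≤ 20 * ((n : ℝ) + 2) ^ 2 * exp (-(17 / 10) * ((n : ℝ) + 1)) := by
        rw [one_mul, hz5]
        gcongr
        exact quad_le hz0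
  · have hW : ∀ y ∈ Icc (0 : ℝ) (17 / 10), f y * g y ≤ 5 := by
      intro y hy
      rcases hy.1.eq_or_lt with h0 | h0
      · rw [← h0, G.f0]; norm_num
      · have hy' : y ∈ Ioo (0 : ℝ) (173 / 100) := ⟨h0, by linarith [hy.2]⟩
        have h1 := A_f_le H y hy'
        have h2 := A_k_le G y hy'
        have h3 := A_g_le G hy'
        have h4 : exp (0.22 * y) ≤ exp 1 := Real.exp_le_exp.2 (by linarith [hy.2])
        have h5 := Real.exp_one_lt_d9
        have h6 : √y ≤ 1.304 := by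
          rw [Real.sqrt_le_left (by norm_num)]; norm_num; linarith [hy.2]
        have h7 := A_k_pos G hy'
        have h8 := A_f_pos H hy'
        have h9 := A_g_pos G hy'
        have h10 : √y * k y ≤ 1.304 * 2.72 := by
          have := Real.sqrt_nonneg y
          gcongr
          linarith
        calc f y * g y ≤ 2.72 * (0.5 * (1.304 * 2.72)) := by
              gcongr
              · linarith
              · linarith
          _ ≤ 5 := by norm_num
    have hnn : ∀ y ∈ Icc (0 : ℝ) (17 / 10), 0 ≤ f y * g y := fun y hy => by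
      have hy' : y ∈ Icc (0 : ℝ) (173 / 100) := ⟨hy.1, by linarith [hy.2]⟩
      exact mul_nonneg (by linarith [hf1 y hy']) (hg0 y hy')
    have u0 := int_upper hcont hnn hW 0
    have u1 := int_upper hcont hnn hW 1
    have n0 : 0 ≤ ∫ y in (0 : ℝ)..(17 / 10), exp (-((((0 : ℕ) : ℝ) + 1 / 2) * y)) * (f y * g y) :=
      intervalIntegral.integral_nonneg (by norm_num) fun y hy =>
        mul_nonneg (exp_pos _).le (hnn y hy)
    have n1 : 0 ≤ ∫ y in (0 : ℝ)..(17 / 10), exp (-((((1 : ℕ) : ℝ) + 1 / 2) * y)) * (f y * g y) :=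
      intervalIntegral.integral_nonneg (by norm_num) fun y hy =>
        mul_nonneg (exp_pos _).le (hnn y hy)
    have e0 : apA 0 = 1 := by decide
    have e1 : apA 1 = 5 := by decide
    rw [e0, e1]
    push_cast at *
    have t1 := tA_ub
    have t0 := tA_pos
    set P0 := ∫ y in (0 : ℝ)..(17 / 10), exp (-((0 + 1 / 2) * y)) * (f y * g y)
    set P1 := ∫ y in (0 : ℝ)..(17 / 10), exp (-((1 + 1 / 2) * y)) * (f y * g y)
    have a1 : tA * P1 ≤ 33.9706 * (1.7 * 5) := by gcongr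
    have a2 : 0 ≤ tA * P1 := by positivity
    rw [abs_le]
    constructor <;> norm_num at * <;> linarith
  · intro n hn
    have h1 := hbc n hn
    refine h1.trans ?_
    have e1 : exp (-(((n : ℝ) + 1 / 2) * (17 / 10))) = exp (-0.85) * exp (-(17 / 10) * (n : ℝ)) := by
      rw [← Real.exp_add]; congr 1; ring
    rw [e1]
    have h2 : exp (Phi0 (3 / 2) (17 / 10) (fun y => f y * g y)
      (fun y => aA y * h y * g y + f y * (aA y * k y)) / (17 / 10)) ≤ exp 1 :=
        Real.exp_le_exp.2 (by linarith)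
    have h3 := Real.exp_one_lt_d9
    have h4 : exp (Phi0 (3 / 2) (17 / 10) (fun y => f y * g y)
      (fun y => aA y * h y * g y + f y * (aA y * k y)) / (17 / 10)) ≤ 2.72 := by linarith
    calc 2 * (f (17 / 10) * g (17 / 10) * exp (Phi0 (3 / 2) (17 / 10) (fun y => f y * g y)
          (fun y => aA y * h y * g y + f y * (aA y * k y)) / (17 / 10))) *
          (exp (-0.85) * exp (-(17 / 10) * (n : ℝ)))
        ≤ 2 * (0.66 * (F * Kv) * 2.72) * (exp (-0.85) * exp (-(17 / 10) * (n : ℝ))) := by gcongr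
      _ = 2 * 0.66 * 2.72 * (F * Kv * exp (-0.85)) * exp (-(17 / 10) * (n : ℝ)) := by ring
      _ ≤ 2 * 0.66 * 2.72 * 1 * exp (-(17 / 10) * (n : ℝ)) := by gcongr
      _ ≤ 10 * exp (-(17 / 10) * (n : ℝ)) := by gcongr; norm_num

end Pool.Agent.TH371.Apy
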