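import Pool.Agent.TH371.Apy.Good

/-!
# One dimensional Laplace transforms in the class
-/

set_option autoImplicit false

namespace Pool.Agent.TH371.Apy

open MeasureTheory Set Real Module

lemma lc_of_mono {s : ℝ} {ψ ψ' : ℝ → ℝ} (hpos : ∀ y, 0 < y → 0 < ψ y)
    (hder : ∀ y, 0 < y → HasDerivAt ψ (ψ' y) y)
    (hmono : MonotoneOn (fun y => y ^ 2 * ψ' y / ψ y - (s - 1) * y) (Ioi 0))
    {z v : ℝ} (hz : 1 < z) (hv : 0 < v) :
    lam z ^ (s - 1) * ψ (v / z) ^ 2 ≤ ψ (v / (z - 1)) * ψ (v / (z + 1)) := by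
  set K : ℝ → ℝ := fun ζ => (s - 1) * log ζ + log (ψ ζ⁻¹) with hK
  have hd : ∀ ζ : ℝ, 0 < ζ →
      HasDerivAt K (-(fun y => y ^ 2 * ψ' y / ψ y - (s - 1) * y) ζ⁻¹) ζ := by
    intro ζ hζ
    have h1 : HasDerivAt (fun x : ℝ => x⁻¹) (-(ζ ^ 2)⁻¹) ζ := hasDerivAt_inv hζ.ne'
    have hi : 0 < ζ⁻¹ := by positivity
    have h2 : HasDerivAt (fun x : ℝ => ψ x⁻¹) (ψ' ζ⁻¹ * -(ζ ^ 2)⁻¹) ζ :=
      (hder _ hi).comp ζ h1
    have h3 := h2.log (hpos _ hi).ne'
    have h4 := (Real.hasDerivAt_log hζ.ne').const_mul (s - 1)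
    have h5 : HasDerivAt K ((s - 1) * ζ⁻¹ + (ψ' ζ⁻¹ * -(ζ ^ 2)⁻¹) / ψ ζ⁻¹) ζ := h4.add h3
    convert h5 using 1
    show -(ζ⁻¹ ^ 2 * ψ' ζ⁻¹ / ψ ζ⁻¹ - (s - 1) * ζ⁻¹) = _
    rw [inv_pow]
    ring
  have hconv : ConvexOn ℝ (Ioi (0 : ℝ)) K := by
    refine MonotoneOn.convexOn_of_deriv (convex_Ioi 0)
      (fun ζ hζ => (hd ζ hζ).continuousAt.continuousWithinAt)
      (by
        rw [interior_Ioi]
        exact fun ζ hζ => (hd ζ hζ).differentiableAt.differentiableWithinAt) ?_
    rw [interior_Ioi]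
    intro x hx y hy hxy
    rw [(hd x hx).deriv, (hd y hy).deriv, neg_le_neg_iff]
    apply hmono
    · exact inv_pos.2 (mem_Ioi.1 hy)
    · exact inv_pos.2 (mem_Ioi.1 hx)
    · exact inv_anti₀ (mem_Ioi.1 hx) hxy
  have h0 : 0 < z := by linarith
  have h1 : 0 < z - 1 := by linarith
  have h2 : 0 < z + 1 := by linarith
  have hmid := hconv.2 (show (z - 1) / v ∈ Ioi (0 : ℝ) from by simp only [mem_Ioi]; positivity)
    (show (z + 1) / v ∈ Ioi (0 : ℝ) from by simp only [mem_Ioi]; positivity)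
    (show (0 : ℝ) ≤ 1 / 2 by norm_num) (show (0 : ℝ) ≤ 1 / 2 by norm_num) (by norm_num)
  simp only [smul_eq_mul] at hmid
  have e0 : 1 / 2 * ((z - 1) / v) + 1 / 2 * ((z + 1) / v) = z / v := by ring
  rw [e0] at hmid
  simp only [hK, inv_div] at hmid
  have p0 := hpos (v / z) (by positivity)
  have p1 := hpos (v / (z - 1)) (by positivity)
  have p2 := hpos (v / (z + 1)) (by positivity)
  have hlam := lam_pos hz
  rw [← Real.log_le_log_iff (by positivity) (by positivity), Real.log_mul (by positivity)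
    (by positivity), Real.log_mul p1.ne' p2.ne', Real.log_pow, Real.log_rpow hlam]
  have hl : log (lam z) = 2 * log (z / v) - log ((z - 1) / v) - log ((z + 1) / v) := by
    rw [Real.log_div h0.ne' hv.ne', Real.log_div h1.ne' hv.ne', Real.log_div h2.ne' hv.ne']
    unfold lam
    rw [Real.log_div (by positivity) (by positivity), Real.log_pow, Real.log_mul h1.ne' h2.ne']
    push_cast
    ring
  rw [hl]
  push_cast
  linarith

/-- one dimensional members of the class -/
theorem good_of_mono {s : ℝ} {ψ ψ' : ℝ → ℝ} (hpos : ∀ y, 0 < y → 0 < ψ y)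
    (hder : ∀ y, 0 < y → HasDerivAt ψ (ψ' y) y)
    (hmono : MonotoneOn (fun y => y ^ 2 * ψ' y / ψ y - (s - 1) * y) (Ioi 0))
    (hint : ∀ z : ℝ, 0 < z → IntegrableOn (fun y => exp (-(z * y)) * ψ y) (Ioi 0)) :
    Good (fun z => ∫ y in Ioi (0 : ℝ), exp (-(z * y)) * ψ y) 0 s := by
  refine ⟨ℝ, inferInstance, inferInstance, inferInstance, inferInstance, inferInstance,
    volume, inferInstance, fun y => y, (Ioi (0 : ℝ)).indicator ψ, ?_, ?_, ?_, ?_, ?_⟩
  · intro r v; rfl
  · intro v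
    apply indicator_nonneg
    intro y hy
    exact (hpos y hy).le
  · intro z hz
    have := (hint z hz).integrable_indicator measurableSet_Ioi
    refine this.congr (Filter.Eventually.of_forall fun v => ?_)
    by_cases hv : v ∈ Ioi (0 : ℝ)
    · simp only [indicator_of_mem hv]
    · simp only [indicator_of_notMem hv, mul_zero]
  · intro z hz
    show (∫ y in Ioi (0 : ℝ), exp (-(z * y)) * ψ y) = _
    rw [← integral_indicator measurableSet_Ioi]
    apply integral_congr_ae
    refine Filter.Eventually.of_forall fun v => ?_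
    by_cases hv : v ∈ Ioi (0 : ℝ)
    · simp only [indicator_of_mem hv]
    · simp only [indicator_of_notMem hv, mul_zero]
  · intro z hz v
    have h0 : 0 < z := by linarith
    have h1 : 0 < z - 1 := by linarith
    have h2 : 0 < z + 1 := by linarith
    simp only [smul_eq_mul, finrank_self, Nat.cast_one]
    by_cases hv : 0 < v
    · have m0 : z⁻¹ * v ∈ Ioi (0 : ℝ) := by simp only [mem_Ioi]; positivity
      have m1 : (z - 1)⁻¹ * v ∈ Ioi (0 : ℝ) := by simp only [mem_Ioi]; positivity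
      have m2 : (z + 1)⁻¹ * v ∈ Ioi (0 : ℝ) := by simp only [mem_Ioi]; positivity
      rw [indicator_of_mem m0, indicator_of_mem m1, indicator_of_mem m2]
      have := lc_of_mono hpos hder hmono hz hv
      simpa only [div_eq_inv_mul] using this
    · have m0 : z⁻¹ * v ∉ Ioi (0 : ℝ) := by
        simp only [mem_Ioi, not_lt]
        exact mul_nonpos_of_nonneg_of_nonpos (by positivity) (not_lt.1 hv)
      rw [indicator_of_notMem m0]
      simp only [ne_eq, OfNat.ofNat_ne_zero, not_false_eq_true, zero_pow, mul_zero]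
      apply mul_nonneg <;> apply indicator_nonneg <;> intro y hy <;> exact (hpos y hy).le

end Pool.Agent.TH371.Apy
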