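import Mathlib

/-!
# Infinite log-convexity of the Apery numbers: definitions

Definitions shared by the files of the proof that both Apery sequences are infinitely log-convex.
-/

set_option autoImplicit false

namespace Pool.Agent.TH371.Apy

open Finset

/-- The log-convexity operator. -/
def L {R : Type*} [CommRing R] (a : ℕ → R) (m : ℕ) : R := a m * a (m + 2) - a (m + 1) ^ 2

/-- The Apery numbers for zeta(3). -/
def apA (n : ℕ) : ℤ := ∑ j ∈ range (n + 1), ((n.choose j : ℕ) : ℤ) ^ 2 *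
  (((n + j).choose j : ℕ) : ℤ) ^ 2

/-- The Apery numbers for zeta(2). -/
def apB (n : ℕ) : ℤ := ∑ j ∈ range (n + 1), ((n.choose j : ℕ) : ℤ) ^ 2 *
  (((n + j).choose j : ℕ) : ℤ)

/-- The exponent of the `k`-th iterate. -/
noncomputable def cc (k : ℕ) : ℝ := 3 * 2 ^ k - 2

/-- A good sequence: all iterates are positive and their log-convexity ratio at `m` is at least
`exp (cc k / z ^ 2)` with `z = m + k + 3 / 2`. -/
def GoodSeq (b : ℕ → ℝ) : Prop :=
  ∀ k m : ℕ, 0 < (L^[k]) b m ∧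
    Real.exp (cc k / ((m : ℝ) + k + 3 / 2) ^ 2) * ((L^[k]) b (m + 1)) ^ 2 ≤
      (L^[k]) b m * (L^[k]) b (m + 2)

/-- `a` is extremely close to a geometric multiple of `b`. -/
def Close (a b : ℕ → ℝ) : Prop :=
  ∀ M : ℕ, 52 ≤ M → ∃ C t : ℝ, 0 < C ∧ 0 < t ∧ ∀ n : ℕ, M ≤ n →
    |a n - C * t ^ n * b n| ≤ (1 / 4) ^ M * (C * t ^ n * b n)

/-- The finite part of the verification. -/
def FinCheck (a : ℕ → ℝ) : Prop :=
  (∀ k ≤ 11, ∀ m ≤ 53, 0 < (L^[k]) a m) ∧
    ∀ m ≤ 51, 2619 * ((L^[11]) a (m + 1)) ^ 2 ≤ 1000 * ((L^[11]) a m * (L^[11]) a (m + 2))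

end Pool.Agent.TH371.Apy
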