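import Pool.Agent.TH371.Apy.Base

/-!
# Extension of a local density to the half line
-/

set_option autoImplicit false

namespace Pool.Agent.TH371.Apy

open MeasureTheory Set Real Module

section ext

variable (s y0 : ℝ) (ψ ψ' : ℝ → ℝ)

/-- the value of the monotone function at `y0` -/
noncomputable def Phi0 : ℝ := y0 ^ 2 * ψ' y0 / ψ y0 - (s - 1) * y0

/-- the outer formula -/
noncomputable def gout (y : ℝ) : ℝ :=
  ψ y0 * (y / y0) ^ (s - 1) * exp (Phi0 s y0 ψ ψ' * (1 / y0 - 1 / y))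

/-- the extension -/
noncomputable def Hext (y : ℝ) : ℝ := if y ≤ y0 then ψ y else gout s y0 ψ ψ' y

/-- its derivative -/
noncomputable def Hext' (y : ℝ) : ℝ :=
  if y ≤ y0 then ψ' y else gout s y0 ψ ψ' y * ((s - 1) / y + Phi0 s y0 ψ ψ' / y ^ 2)

end ext

variable {s y0 y1 Bd : ℝ} {ψ ψ' : ℝ → ℝ}

lemma gout_der (h0 : 0 < y0) {y : ℝ} (hy : 0 < y) :
    HasDerivAt (gout s y0 ψ ψ')
      (gout s y0 ψ ψ' y * ((s - 1) / y + Phi0 s y0 ψ ψ' / y ^ 2)) y := by
  have h1 : HasDerivAt (fun y : ℝ => y / y0) (1 / y0) y := (hasDerivAt_id y).div_const y0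
  have hp : 0 < y / y0 := by positivity
  have h2 := h1.rpow_const (p := s - 1) (Or.inl hp.ne')
  have h3 : HasDerivAt (fun y : ℝ => 1 / y0 - 1 / y) (1 / y ^ 2) y := by
    have := (hasDerivAt_inv hy.ne').const_sub (1 / y0)
    simpa [one_div] using this
  have h4 := (h3.const_mul (Phi0 s y0 ψ ψ')).exp
  have h5 := (h2.const_mul (ψ y0)).mul h4
  refine h5.congr_deriv ?_
  have h6 : (y / y0) ^ (s - 1 - 1) = (y / y0) ^ (s - 1) * (y0 / y) := by
    rw [Real.rpow_sub_one hp.ne']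
    field_simp
  rw [h6]
  unfold gout
  field_simp

lemma gout_y0 (h0 : 0 < y0) : gout s y0 ψ ψ' y0 = ψ y0 := by
  unfold gout
  rw [div_self h0.ne', Real.one_rpow, sub_self, mul_zero, Real.exp_zero]
  ring

lemma gout_pos (h0 : 0 < y0) (hp : 0 < ψ y0) {y : ℝ} (hy : 0 < y) : 0 < gout s y0 ψ ψ' y := by
  unfold gout
  positivity

lemma Hext_der (h0 : 0 < y0) (h01 : y0 < y1) (hpos : ∀ y ∈ Ioo 0 y1, 0 < ψ y)
    (hder : ∀ y ∈ Ioo 0 y1, HasDerivAt ψ (ψ' y) y) {y : ℝ} (hy : 0 < y) :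
    HasDerivAt (Hext s y0 ψ ψ') (Hext' s y0 ψ ψ' y) y := by
  rcases lt_trichotomy y y0 with h | h | h
  · have e : Hext' s y0 ψ ψ' y = ψ' y := by unfold Hext'; rw [if_pos h.le]
    rw [e]
    refine (hder y ⟨hy, h.trans h01⟩).congr_of_eventuallyEq ?_
    filter_upwards [Iio_mem_nhds h] with x hx
    unfold Hext
    rw [if_pos (le_of_lt hx)]
  · subst h
    have e : Hext' s y ψ ψ' y = ψ' y := by unfold Hext'; rw [if_pos le_rfl]
    rw [e]
    have h1 : HasDerivWithinAt (Hext s y ψ ψ') (ψ' y) (Iic y) y := by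
      refine (hder y ⟨hy, h01⟩).hasDerivWithinAt.congr (fun x hx => ?_) ?_
      · unfold Hext; rw [if_pos (mem_Iic.1 hx)]
      · unfold Hext; rw [if_pos le_rfl]
    have h2 : HasDerivWithinAt (Hext s y ψ ψ') (ψ' y) (Ici y) y := by
      have h3 := (gout_der (s := s) (ψ := ψ) (ψ' := ψ') hy hy).hasDerivWithinAt (s := Ici y)
      have e2 : gout s y ψ ψ' y * ((s - 1) / y + Phi0 s y ψ ψ' / y ^ 2) = ψ' y := by
        rw [gout_y0 hy]
        have := (hpos y ⟨hy, h01⟩).ne'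
        unfold Phi0
        field_simp
        ring
      rw [e2] at h3
      refine h3.congr (fun x hx => ?_) ?_
      · unfold Hext
        by_cases hxy : x ≤ y
        · rw [if_pos hxy, le_antisymm hxy hx, gout_y0 hy]
        · rw [if_neg hxy]
      · unfold Hext; rw [if_pos le_rfl, gout_y0 hy]
    have := h1.union h2
    rw [Iic_union_Ici] at this
    exact hasDerivWithinAt_univ.1 this
  · have e : Hext' s y0 ψ ψ' y =
        gout s y0 ψ ψ' y * ((s - 1) / y + Phi0 s y0 ψ ψ' / y ^ 2) := by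
      unfold Hext'; rw [if_neg (not_le.2 h)]
    rw [e]
    refine (gout_der h0 hy).congr_of_eventuallyEq ?_
    filter_upwards [Ioi_mem_nhds h] with x hx
    unfold Hext
    rw [if_neg (not_le.2 hx)]

lemma Hext_pos (h0 : 0 < y0) (h01 : y0 < y1) (hpos : ∀ y ∈ Ioo 0 y1, 0 < ψ y) {y : ℝ}
    (hy : 0 < y) : 0 < Hext s y0 ψ ψ' y := by
  unfold Hext
  split_ifs with h
  · exact hpos y ⟨hy, h.trans_lt h01⟩
  · exact gout_pos h0 (hpos y0 ⟨h0, h01⟩) hy

lemma Hext_mono (h0 : 0 < y0) (h01 : y0 < y1) (hpos : ∀ y ∈ Ioo 0 y1, 0 < ψ y)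
    (hmono : MonotoneOn (fun y => y ^ 2 * ψ' y / ψ y - (s - 1) * y) (Ioc 0 y0)) :
    MonotoneOn (fun y => y ^ 2 * Hext' s y0 ψ ψ' y / Hext s y0 ψ ψ' y - (s - 1) * y) (Ioi 0) := by
  have hin : ∀ y, 0 < y → y ≤ y0 →
      y ^ 2 * Hext' s y0 ψ ψ' y / Hext s y0 ψ ψ' y - (s - 1) * y =
        y ^ 2 * ψ' y / ψ y - (s - 1) * y := by
    intro y _ h; unfold Hext Hext'; rw [if_pos h, if_pos h]
  have hout : ∀ y, y0 ≤ y →
      y ^ 2 * Hext' s y0 ψ ψ' y / Hext s y0 ψ ψ' y - (s - 1) * y = Phi0 s y0 ψ ψ' := by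
    intro y h
    rcases h.eq_or_lt with h | h
    · subst h; rw [hin y0 h0 le_rfl]; rfl
    · have hy : 0 < y := h0.trans h
      unfold Hext Hext'
      rw [if_neg (not_le.2 h), if_neg (not_le.2 h)]
      have := (gout_pos (s := s) (ψ' := ψ') h0 (hpos y0 ⟨h0, h01⟩) hy).ne'
      field_simp
      ring
  intro x hx y hy hxy
  simp only
  rcases le_total y y0 with h | h
  · rw [hin x hx (hxy.trans h), hin y hy h]
    exact hmono ⟨hx, hxy.trans h⟩ ⟨hy, h⟩ hxy
  · rw [hout y h]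
    rcases le_total x y0 with h' | h'
    · rw [hin x hx h']
      exact hmono ⟨hx, h'⟩ ⟨h0, le_rfl⟩ h'
    · rw [hout x h']

lemma gout_le (hs2 : s ≤ 2) (hy0 : 1 ≤ y0) (hp : 0 < ψ y0) (hPhi : 0 ≤ Phi0 s y0 ψ ψ') {y : ℝ}
    (hy : y0 ≤ y) : gout s y0 ψ ψ' y ≤ ψ y0 * exp (Phi0 s y0 ψ ψ' / y0) * (y / y0) := by
  have h0 : 0 < y0 := by linarith
  have h1 : 1 ≤ y / y0 := by rw [one_le_div h0]; exact hy
  have h2 : (y / y0) ^ (s - 1) ≤ y / y0 := by
    calc (y / y0) ^ (s - 1) ≤ (y / y0) ^ (1 : ℝ) :=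
          Real.rpow_le_rpow_of_exponent_le h1 (by linarith)
      _ = _ := Real.rpow_one _
  have h3 : exp (Phi0 s y0 ψ ψ' * (1 / y0 - 1 / y)) ≤ exp (Phi0 s y0 ψ ψ' / y0) := by
    apply Real.exp_le_exp.2
    have hy' : 0 < y := h0.trans_le hy
    have : 0 ≤ 1 / y := by positivity
    rw [div_eq_mul_one_div (Phi0 s y0 ψ ψ') y0]
    apply mul_le_mul_of_nonneg_left (by linarith) hPhi
  unfold gout
  calc ψ y0 * (y / y0) ^ (s - 1) * exp (Phi0 s y0 ψ ψ' * (1 / y0 - 1 / y))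
      ≤ ψ y0 * (y / y0) * exp (Phi0 s y0 ψ ψ' / y0) := by gcongr
    _ = _ := by ring

/-- From a local density to a good sequence. -/
theorem extend_good (hs2 : s ≤ 2) (hs : 1 ≤ s) (hy0 : 1 ≤ y0) (h01 : y0 < y1)
    (hc : ContinuousOn ψ (Icc 0 y1)) (hpos : ∀ y ∈ Ioo 0 y1, 0 < ψ y)
    (hder : ∀ y ∈ Ioo 0 y1, HasDerivAt ψ (ψ' y) y)
    (hmono : MonotoneOn (fun y => y ^ 2 * ψ' y / ψ y - (s - 1) * y) (Ioc 0 y0))
    (hPhi : 0 ≤ Phi0 s y0 ψ ψ') :
    ∃ b : ℕ → ℝ, GoodSeq b ∧ ∀ n : ℕ, 1 ≤ n →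
      |b n - ∫ y in (0 : ℝ)..y0, exp (-(((n : ℝ) + 1 / 2) * y)) * ψ y| ≤
        2 * (ψ y0 * exp (Phi0 s y0 ψ ψ' / y0)) * exp (-(((n : ℝ) + 1 / 2) * y0)) := by
  have h0 : 0 < y0 := by linarith
  have hp0 : 0 < ψ y0 := hpos y0 ⟨h0, h01⟩
  set C := ψ y0 * exp (Phi0 s y0 ψ ψ' / y0) with hC
  have hC0 : 0 < C := by positivity
  set H := Hext s y0 ψ ψ' with hH
  have hHpos : ∀ y, 0 < y → 0 < H y := fun y hy => Hext_pos h0 h01 hpos hy
  have hHin : ∀ y ∈ Ioc 0 y0, H y = ψ y := by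
    intro y hy; rw [hH]; unfold Hext; rw [if_pos hy.2]
  have hHout : ∀ y ∈ Ioi y0, H y ≤ C * (y / y0) := by
    intro y hy
    rw [hH]; unfold Hext; rw [if_neg (not_le.2 hy)]
    exact gout_le hs2 hy0 hp0 hPhi (le_of_lt hy)
  have hHder : ∀ y, 0 < y → HasDerivAt H (Hext' s y0 ψ ψ' y) y := fun y hy =>
    Hext_der h0 h01 hpos hder hy
  have hHcont : ContinuousOn H (Ioi 0) := fun y hy => (hHder y hy).continuousAt.continuousWithinAt
  have hexp : ∀ z : ℝ, Continuous (fun y : ℝ => exp (-(z * y))) := fun z => by fun_prop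
  -- integrability
  have hI1 : ∀ z : ℝ, IntegrableOn (fun y => exp (-(z * y)) * H y) (Ioc 0 y0) := by
    intro z
    have h1 : IntegrableOn (fun y => exp (-(z * y)) * ψ y) (Icc 0 y0) :=
      ((hexp z).continuousOn.mul (hc.mono (Icc_subset_Icc_right h01.le))).integrableOn_Icc
    have h2 := h1.mono_set Ioc_subset_Icc_self
    exact h2.congr_fun (fun y hy => by simp only [hHin y hy]) measurableSet_Ioc
  have hmeas : ∀ z : ℝ, AEStronglyMeasurable (fun y => exp (-(z * y)) * H y)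
      (volume.restrict (Ioi y0)) := by
    intro z
    refine ContinuousOn.aestronglyMeasurable ?_ measurableSet_Ioi
    exact (hexp z).continuousOn.mul (hHcont.mono (Ioi_subset_Ioi h0.le))
  have hI2 : ∀ z : ℝ, 0 < z → IntegrableOn (fun y => exp (-(z * y)) * H y) (Ioi y0) := by
    intro z hz
    have hg : IntegrableOn (fun y => (2 * C / z) * exp (-(z / 2) * y)) (Ioi y0) :=
      (exp_neg_integrableOn_Ioi y0 (by positivity)).const_mul _
    refine Integrable.mono' hg (hmeas z) ?_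
    rw [ae_restrict_iff' measurableSet_Ioi]
    refine Filter.Eventually.of_forall fun y hy => ?_
    have hy' : 0 < y := h0.trans hy
    rw [Real.norm_eq_abs, abs_of_pos (mul_pos (exp_pos _) (hHpos y hy'))]
    have h1 := hHout y hy
    have h2 : y / y0 ≤ y := div_le_self hy'.le hy0
    have h3 : z / 2 * y ≤ exp (z / 2 * y) := by linarith [Real.add_one_le_exp (z / 2 * y)]
    have h4 : y ≤ 2 / z * exp (z / 2 * y) := by
      rw [div_mul_eq_mul_div, le_div_iff₀ hz]; linarith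
    calc exp (-(z * y)) * H y ≤ exp (-(z * y)) * (C * (2 / z * exp (z / 2 * y))) := by
          gcongr
          exact h1.trans (by gcongr; exact h2.trans h4)
      _ = 2 * C / z * (exp (-(z * y)) * exp (z / 2 * y)) := by ring
      _ = 2 * C / z * exp (-(z / 2) * y) := by
          rw [← Real.exp_add]; congr 2; ring
  have hI : ∀ z : ℝ, 0 < z → IntegrableOn (fun y => exp (-(z * y)) * H y) (Ioi 0) := by
    intro z hz
    rw [← Ioc_union_Ioi_eq_Ioi h0.le]
    exact (hI1 z).union (hI2 z hz)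
  have hgood := good_of_mono (s := s) (ψ := H) (ψ' := Hext' s y0 ψ ψ') hHpos hHder
    (Hext_mono h0 h01 hpos hmono) hI
  have hFpos : ∀ z, 0 < z → 0 < ∫ y in Ioi (0 : ℝ), exp (-(z * y)) * H y := by
    intro z hz
    rw [setIntegral_pos_iff_support_of_nonneg_ae]
    · have : (Function.support fun y => exp (-(z * y)) * H y) ∩ Ioi 0 = Ioi 0 := by
        rw [inter_eq_right]
        intro y hy
        exact (mul_pos (exp_pos _) (hHpos y hy)).ne'
      rw [this]
      simp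
    · rw [Filter.EventuallyLE, ae_restrict_iff' measurableSet_Ioi]
      exact Filter.Eventually.of_forall fun y hy => (mul_pos (exp_pos _) (hHpos y hy)).le
    · exact hI z hz
  refine ⟨fun n => ∫ y in Ioi (0 : ℝ), exp (-(((n : ℝ) + 1 / 2) * y)) * H y,
    goodSeq_of_good hs hgood hFpos, ?_⟩
  intro n hn
  have hn1 : (1 : ℝ) ≤ n := by exact_mod_cast hn
  set z : ℝ := (n : ℝ) + 1 / 2 with hz
  have hz0 : 0 < z := by linarith
  have hsplit : (∫ y in Ioi (0 : ℝ), exp (-(z * y)) * H y) =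
      (∫ y in (0 : ℝ)..y0, exp (-(z * y)) * ψ y) + ∫ y in Ioi y0, exp (-(z * y)) * H y := by
    rw [← Ioc_union_Ioi_eq_Ioi h0.le, setIntegral_union (Ioc_disjoint_Ioi le_rfl)
      measurableSet_Ioi (hI1 z) (hI2 z hz0), intervalIntegral.integral_of_le h0.le]
    congr 1
    exact setIntegral_congr_fun measurableSet_Ioc fun y hy => by simp only [hHin y hy]
  show |(∫ y in Ioi (0 : ℝ), exp (-(z * y)) * H y) - _| ≤ _
  rw [hsplit, add_sub_cancel_left]
  have hnn : 0 ≤ ∫ y in Ioi y0, exp (-(z * y)) * H y :=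
    setIntegral_nonneg measurableSet_Ioi fun y hy =>
      (mul_pos (exp_pos _) (hHpos y (h0.trans hy))).le
  rw [abs_of_nonneg hnn]
  have hw : 1 / 2 ≤ z - 1 / y0 := by
    have : 1 / y0 ≤ 1 := by rw [div_le_one h0]; exact hy0
    linarith
  have hneg : -(z - 1 / y0) < 0 := by linarith
  have hle : (∫ y in Ioi y0, exp (-(z * y)) * H y) ≤
      ∫ y in Ioi y0, (C * exp (-1)) * exp (-(z - 1 / y0) * y) := by
    refine setIntegral_mono_on (hI2 z hz0) ((integrableOn_exp_mul_Ioi hneg y0).const_mul _)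
      measurableSet_Ioi fun y hy => ?_
    have h1 := hHout y hy
    have h2 : y / y0 ≤ exp (y / y0 - 1) := by linarith [Real.add_one_le_exp (y / y0 - 1)]
    calc exp (-(z * y)) * H y ≤ exp (-(z * y)) * (C * exp (y / y0 - 1)) := by
          gcongr
          exact h1.trans (by gcongr)
      _ = C * (exp (-(z * y)) * exp (y / y0 - 1)) := by ring
      _ = C * (exp (-1) * exp (-(z - 1 / y0) * y)) := by
          rw [← Real.exp_add, ← Real.exp_add]; congr 2; ring
      _ = _ := by ring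
  refine hle.trans ?_
  rw [integral_const_mul, integral_exp_mul_Ioi hneg]
  have e1 : exp (-1) * exp (-(z - 1 / y0) * y0) = exp (-(z * y0)) := by
    rw [← Real.exp_add]; congr 1; field_simp; ring
  have e2 : C * exp (-1) * (-exp (-(z - 1 / y0) * y0) / -(z - 1 / y0)) =
      C * exp (-(z * y0)) / (z - 1 / y0) := by
    rw [neg_div_neg_eq, ← e1]; ring
  rw [e2, div_le_iff₀ (by linarith)]
  have : 0 < C * exp (-(z * y0)) := by positivity
  nlinarith

end Pool.Agent.TH371.Apy
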