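import Pool.Agent.TH371.Apy.MonoB

/-!
# Monotonicity for the zeta(3) density
-/

set_option autoImplicit false

namespace Pool.Agent.TH371.Apy

open MeasureTheory Set Real Filter Topology

lemma A_aux {y : ℝ} (hy : y ∈ Ioo (0 : ℝ) (173 / 100)) : 0 < qA y ∧ 16 * y ≤ qA y ∧ qA y ≤ 27.9 ∧
    y * qA' y ≤ qA y ∧ qA y ≤ 34 * y ∧ y * (28 - qA y) / 4 ≤ qA' y ∧ 0 < √(qA y) ∧
    √(qA y) ^ 2 = qA y ∧ 4 * √y ≤ √(qA y) ∧ 0 < √y ∧ √y ^ 2 = y ∧ 0 < qA' y := by
  have h0 := qA_pos hy.1 hy.2.le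
  have h1 := qA_lin hy.1.le hy.2.le
  refine ⟨h0, h1, qA_le hy.1.le hy.2.le, qA_conc hy.1.le, qA_up hy.1.le,
    qA_V hy.1.le hy.2.le, Real.sqrt_pos.2 h0, Real.sq_sqrt h0.le, ?_, Real.sqrt_pos.2 hy.1,
    Real.sq_sqrt hy.1.le, by linarith [qA'_ge hy.2.le]⟩
  apply Real.le_sqrt_of_sq_le
  rw [mul_pow, Real.sq_sqrt hy.1.le]
  linarith

lemma aA_der {y : ℝ} (hy : y ∈ Ioo (0 : ℝ) (173 / 100)) :
    HasDerivAt aA (-(qA' y / (2 * qA y)) * aA y) y := by
  obtain ⟨q0, q1, q2, q3, q4, q5, s0, s1, s2, r0, r1, d0⟩ := A_aux hy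
  have h1 := ((qA_der y).sqrt q0.ne').fun_inv s0.ne'
  have h2 : HasDerivAt aA (-(qA' y / (2 * √(qA y))) / √(qA y) ^ 2) y := by
    unfold aA
    simpa [one_div] using h1
  refine h2.congr_deriv ?_
  unfold aA
  rw [s1]
  field_simp

lemma aA_bd {y : ℝ} (hy : y ∈ Ioo (0 : ℝ) (173 / 100)) :
    0 < aA y ∧ aA y ^ 2 = 1 / qA y ∧ aA y * (4 * √y) ≤ 1 ∧ 0 ≤ bA y ∧ bA y * √y ≤ 0.4375 ∧
    bA y = (28 - qA y) / 16 * aA y := by
  obtain ⟨q0, q1, q2, q3, q4, q5, s0, s1, s2, r0, r1, d0⟩ := A_aux hy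
  have e : bA y = (28 - qA y) / 16 * aA y := by
    unfold bA aA; field_simp
  have ha : 0 < aA y := by unfold aA; positivity
  have h3 : aA y * (4 * √y) ≤ 1 := by
    unfold aA
    rw [one_div, inv_mul_le_iff₀ s0]
    linarith
  refine ⟨ha, by unfold aA; rw [div_pow, s1]; norm_num, h3, ?_, ?_, e⟩
  · rw [e]
    apply mul_nonneg (by linarith) ha.le
  · rw [e]
    have : aA y * √y ≤ 1 / 4 := by linarith
    have h5 : 0 ≤ aA y * √y := by positivity
    nlinarith

section A1

variable {f h : ℝ → ℝ} (H : Sys aA bA f h (173 / 100) 1 0)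

include H

lemma A_f_pos {y : ℝ} (hy : y ∈ Ioo (0 : ℝ) (173 / 100)) : 1 ≤ f y := H.fge y ⟨hy.1.le, hy.2.le⟩

lemma A_h_nn {y : ℝ} (hy : y ∈ Ioo (0 : ℝ) (173 / 100)) : 0 ≤ h y := H.hge y ⟨hy.1.le, hy.2.le⟩

lemma A_h_le : ∀ y ∈ Ioo (0 : ℝ) (173 / 100), h y ≤ 0.875 * √y * f y := by
  have key : ∀ y ∈ Ioo (0 : ℝ) (173 / 100), 0 ≤ 0.875 * √y * f y - h y := by
    refine nonneg_of_deriv (D' := fun y => 0.875 * (1 / (2 * √y)) * f y +
      0.875 * √y * (aA y * h y) - bA y * f y)
      (G := h) ?_ ?_ (tendsto_of_contOn (by norm_num) H.ch H.h0) ?_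
    · intro y hy
      exact (((Real.hasDerivAt_sqrt hy.1.ne').const_mul 0.875).mul (H.df y hy)).sub (H.dh y hy)
    · intro y hy
      obtain ⟨q0, q1, q2, q3, q4, q5, s0, s1, s2, r0, r1, d0⟩ := A_aux hy
      obtain ⟨a0, a1, a2, b0, b1, b2⟩ := aA_bd hy
      have hf := A_f_pos H hy
      have hh := A_h_nn H hy
      have h1 : 0 ≤ 0.875 * √y * (aA y * h y) := by positivity
      have h2 : bA y ≤ 0.875 * (1 / (2 * √y)) := by
        rw [show (0.875 : ℝ) * (1 / (2 * √y)) = 0.4375 / √y by field_simp; norm_num]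
        rw [le_div_iff₀ r0]
        exact b1
      have h3 : bA y * f y ≤ 0.875 * (1 / (2 * √y)) * f y := by gcongr
      linarith
    · intro y hy
      have hf := A_f_pos H hy
      have : 0 ≤ 0.875 * √y * f y := by positivity
      linarith
  intro y hy
  linarith [key y hy]

lemma A_yah {y : ℝ} (hy : y ∈ Ioo (0 : ℝ) (173 / 100)) : aA y * h y ≤ 0.21875 * f y := by
  obtain ⟨q0, q1, q2, q3, q4, q5, s0, s1, s2, r0, r1, d0⟩ := A_aux hy
  obtain ⟨a0, a1, a2, b0, b1, b2⟩ := aA_bd hy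
  have hf := A_f_pos H hy
  have hh := A_h_le H y hy
  calc aA y * h y ≤ aA y * (0.875 * √y * f y) := by gcongr
    _ = (aA y * (4 * √y)) * (0.21875 * f y) := by ring
    _ ≤ 1 * (0.21875 * f y) := by gcongr
    _ = _ := one_mul _

lemma A_f_le : ∀ y ∈ Ioo (0 : ℝ) (173 / 100), f y ≤ exp (0.22 * y) := by
  have key : ∀ y ∈ Ioo (0 : ℝ) (173 / 100), 0 ≤ 1 - f y * exp (-(0.22 * y)) := by
    refine nonneg_of_deriv (D' := fun y =>
      -(aA y * h y * exp (-(0.22 * y)) + f y * (exp (-(0.22 * y)) * -0.22)))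
      (G := fun y => f y * exp (-(0.22 * y)) - 1) ?_ ?_ ?_ ?_
    · intro y hy
      have h0 : HasDerivAt (fun y : ℝ => -(0.22 * y)) (-0.22) y := by
        have := ((hasDerivAt_id y).const_mul (0.22 : ℝ)).fun_neg
        simpa using this
      exact ((H.df y hy).mul h0.exp).const_sub 1
    · intro y hy
      have hf := A_f_pos H hy
      have hh := A_yah H hy
      have he := exp_pos (-(0.22 * y))
      nlinarith
    · have h1 := tendsto_of_contOn (by norm_num) H.cf H.f0
      have h2 : Tendsto (fun y : ℝ => exp (-(0.22 * y))) (𝓝[>] 0) (𝓝 1) := by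
        have : ContinuousAt (fun y : ℝ => exp (-(0.22 * y))) 0 := by fun_prop
        have h3 := this.tendsto
        simp only [mul_zero, neg_zero, exp_zero] at h3
        exact h3.mono_left nhdsWithin_le_nhds
      have := (h1.mul h2).sub_const 1
      simpa using this
    · intro y hy
      linarith
  intro y hy
  have h1 := key y hy
  have h2 : f y * exp (-(0.22 * y)) ≤ 1 := by linarith
  rw [Real.exp_neg, ← div_eq_mul_inv, div_le_one (exp_pos _)] at h2
  exact h2

lemma A_mono_f : MonotoneOn (fun y => y ^ 2 * (aA y * h y) / f y) (Ioc 0 (17 / 10)) := by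
  refine mono_of_deriv (y1 := 173 / 100) (by norm_num)
    (D' := fun y => ((y * aA y * h y * (2 * f y - y * (qA' y / (2 * qA y)) * f y -
      y * (aA y * h y)) + y ^ 2 * aA y * bA y * f y ^ 2) / f y ^ 2)) ?_ ?_
  · intro y hy
    have hf := A_f_pos H hy
    have hf0 : f y ≠ 0 := by positivity
    have h2 := (((hasDerivAt_pow 2 y).mul ((aA_der hy).mul (H.dh y hy))).div (H.df y hy) hf0)
    refine h2.congr_deriv ?_
    simp only [Pi.mul_apply]
    field_simp
    ring
  · intro y hy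
    obtain ⟨q0, q1, q2, q3, q4, q5, s0, s1, s2, r0, r1, d0⟩ := A_aux hy
    obtain ⟨a0, a1, a2, b0, b1, b2⟩ := aA_bd hy
    have hf := A_f_pos H hy
    have hh := A_h_nn H hy
    have hh2 := A_yah H hy
    have hy0 := hy.1
    have hy1 := hy.2
    have k0 : y * (qA' y / (2 * qA y)) ≤ 1 / 2 := by
      rw [mul_div_assoc', div_le_div_iff₀ (by positivity) (by norm_num)]
      linarith
    have k1 : 0 ≤ 2 * f y - y * (qA' y / (2 * qA y)) * f y - y * (aA y * h y) := by
      have a1 : y * (qA' y / (2 * qA y)) * f y ≤ 1 / 2 * f y := by gcongr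
      have a2 : y * (aA y * h y) ≤ 173 / 100 * (0.21875 * f y) := by gcongr
      nlinarith
    positivity

end A1

section A2

variable {g k : ℝ → ℝ} (G : Sys aA bA g k (173 / 100) 0 1)

include G

lemma A_k_pos {y : ℝ} (hy : y ∈ Ioo (0 : ℝ) (173 / 100)) : 1 ≤ k y := G.hge y ⟨hy.1.le, hy.2.le⟩

lemma A_g_nn {y : ℝ} (hy : y ∈ Ioo (0 : ℝ) (173 / 100)) : 0 ≤ g y := G.fge y ⟨hy.1.le, hy.2.le⟩

/-- lower bound for `g` -/
lemma A_g_ge : ∀ y ∈ Ioo (0 : ℝ) (173 / 100), 0.34 * √y ≤ g y := by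
  have key : ∀ y ∈ Ioo (0 : ℝ) (173 / 100), 0 ≤ g y - 0.34 * √y := by
    refine nonneg_of_deriv (D' := fun y => aA y * k y - 0.34 * (1 / (2 * √y)))
      (G := fun y => 0.34 * √y) ?_ ?_ ?_ ?_
    · intro y hy
      exact (G.df y hy).sub ((Real.hasDerivAt_sqrt hy.1.ne').const_mul 0.34)
    · intro y hy
      obtain ⟨q0, q1, q2, q3, q4, q5, s0, s1, s2, r0, r1, d0⟩ := A_aux hy
      obtain ⟨a0, a1, a2, b0, b1, b2⟩ := aA_bd hy
      have hk := A_k_pos G hy
      have h1 : √(qA y) ≤ 5.84 * √y := by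
        apply Real.sqrt_le_iff.2 ⟨by positivity, ?_⟩
        rw [mul_pow, r1]
        nlinarith [hy.1]
      have h2 : 0.34 * (1 / (2 * √y)) ≤ aA y := by
        unfold aA
        rw [show (0.34 : ℝ) * (1 / (2 * √y)) = 0.17 / √y by field_simp; norm_num,
          div_le_div_iff₀ r0 s0]
        nlinarith
      have h3 : aA y * 1 ≤ aA y * k y := by gcongr
      linarith
    · have : ContinuousAt (fun y : ℝ => 0.34 * √y) 0 := by fun_prop
      have h3 := this.tendsto
      simp only [sqrt_zero, mul_zero] at h3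
      exact h3.mono_left nhdsWithin_le_nhds
    · intro y hy
      have := A_g_nn G hy
      linarith
  intro y hy
  linarith [key y hy]

lemma A_g_pos {y : ℝ} (hy : y ∈ Ioo (0 : ℝ) (173 / 100)) : 0 < g y := by
  have h1 := A_g_ge G y hy
  have h2 := Real.sqrt_pos.2 hy.1
  nlinarith

/-- `p ≥ 1/2` -/
lemma A_p_ge : ∀ y ∈ Ioo (0 : ℝ) (173 / 100), g y ≤ 2 * y * (aA y * k y) := by
  have key : ∀ y ∈ Ioo (0 : ℝ) (173 / 100), 0 ≤ 2 * y * (aA y * k y) - g y := by
    refine nonneg_of_deriv (D' := fun y => 2 * (aA y * k y) +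
      2 * y * (-(qA' y / (2 * qA y)) * aA y * k y + aA y * (bA y * g y)) - aA y * k y)
      (G := g) ?_ ?_ (tendsto_of_contOn (by norm_num) G.cf G.f0) ?_
    · intro y hy
      have h1 := (((hasDerivAt_id y).const_mul 2).mul ((aA_der hy).mul (G.dh y hy))).sub (G.df y hy)
      refine h1.congr_deriv ?_
      simp only [id, Pi.mul_apply]
      ring
    · intro y hy
      obtain ⟨q0, q1, q2, q3, q4, q5, s0, s1, s2, r0, r1, d0⟩ := A_aux hy
      obtain ⟨a0, a1, a2, b0, b1, b2⟩ := aA_bd hy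
      have hk := A_k_pos G hy
      have hg := A_g_nn G hy
      have hy0 := hy.1
      have k0 : y * (qA' y / (2 * qA y)) ≤ 1 / 2 := by
        rw [mul_div_assoc', div_le_div_iff₀ (by positivity) (by norm_num)]
        linarith
      have e : 2 * (aA y * k y) +
          2 * y * (-(qA' y / (2 * qA y)) * aA y * k y + aA y * (bA y * g y)) - aA y * k y =
          aA y * k y * (1 - 2 * (y * (qA' y / (2 * qA y)))) + 2 * y * (aA y * (bA y * g y)) := by
        ring
      simp only [e]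
      have : 0 ≤ 1 - 2 * (y * (qA' y / (2 * qA y))) := by linarith
      positivity
    · intro y hy
      obtain ⟨a0, a1, a2, b0, b1, b2⟩ := aA_bd hy
      have hk := A_k_pos G hy
      have hy0 := hy.1
      have : 0 ≤ 2 * y * (aA y * k y) := by positivity
      linarith
  intro y hy
  linarith [key y hy]

/-- `g ≤ 0.5 √y k` -/
lemma A_g_le {y : ℝ} (hy : y ∈ Ioo (0 : ℝ) (173 / 100)) : g y ≤ 0.5 * √y * k y := by
  obtain ⟨q0, q1, q2, q3, q4, q5, s0, s1, s2, r0, r1, d0⟩ := A_aux hy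
  obtain ⟨a0, a1, a2, b0, b1, b2⟩ := aA_bd hy
  have hk := A_k_pos G hy
  have h1 := A_p_ge G y hy
  calc g y ≤ 2 * y * (aA y * k y) := h1
    _ = (aA y * (4 * √y)) * (0.5 * √y * k y) := by
      have : y = √y * √y := by rw [← sq, r1]
      nth_rewrite 1 [this]
      ring
    _ ≤ 1 * (0.5 * √y * k y) := by gcongr
    _ = _ := one_mul _

lemma A_k_le : ∀ y ∈ Ioo (0 : ℝ) (173 / 100), k y ≤ exp (0.22 * y) := by
  have key : ∀ y ∈ Ioo (0 : ℝ) (173 / 100), 0 ≤ 1 - k y * exp (-(0.22 * y)) := by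
    refine nonneg_of_deriv (D' := fun y =>
      -(bA y * g y * exp (-(0.22 * y)) + k y * (exp (-(0.22 * y)) * -0.22)))
      (G := fun y => k y * exp (-(0.22 * y)) - 1) ?_ ?_ ?_ ?_
    · intro y hy
      have h0 : HasDerivAt (fun y : ℝ => -(0.22 * y)) (-0.22) y := by
        have := ((hasDerivAt_id y).const_mul (0.22 : ℝ)).fun_neg
        simpa using this
      exact ((G.dh y hy).mul h0.exp).const_sub 1
    · intro y hy
      obtain ⟨a0, a1, a2, b0, b1, b2⟩ := aA_bd hy
      have hk := A_k_pos G hy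
      have hg := A_g_le G hy
      have he := exp_pos (-(0.22 * y))
      have h1 : bA y * g y ≤ 0.22 * k y := by
        calc bA y * g y ≤ bA y * (0.5 * √y * k y) := by gcongr
          _ = (bA y * √y) * (0.5 * k y) := by ring
          _ ≤ 0.4375 * (0.5 * k y) := by gcongr
          _ ≤ 0.22 * k y := by linarith
      nlinarith
    · have h1 := tendsto_of_contOn (by norm_num) G.ch G.h0
      have h2 : Tendsto (fun y : ℝ => exp (-(0.22 * y))) (𝓝[>] 0) (𝓝 1) := by
        have : ContinuousAt (fun y : ℝ => exp (-(0.22 * y))) 0 := by fun_prop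
        have h3 := this.tendsto
        simp only [mul_zero, neg_zero, exp_zero] at h3
        exact h3.mono_left nhdsWithin_le_nhds
      have := (h1.mul h2).sub_const 1
      simpa using this
    · intro y hy
      linarith
  intro y hy
  have h1 := key y hy
  have h2 : k y * exp (-(0.22 * y)) ≤ 1 := by linarith
  rw [Real.exp_neg, ← div_eq_mul_inv, div_le_one (exp_pos _)] at h2
  exact h2

/-- `p ≤ 1` -/
lemma A_p_le : ∀ y ∈ Ioo (0 : ℝ) (173 / 100), y * (aA y * k y) ≤ g y := by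
  have key : ∀ y ∈ Ioo (0 : ℝ) (173 / 100), 0 ≤ g y - y * (aA y * k y) := by
    refine nonneg_of_deriv (D' := fun y => aA y * k y - (aA y * k y +
      y * (-(qA' y / (2 * qA y)) * aA y * k y + aA y * (bA y * g y))))
      (G := fun y => 0.25 * √y * k y) ?_ ?_ ?_ ?_
    · intro y hy
      have h1 := (G.df y hy).sub ((hasDerivAt_id y).mul ((aA_der hy).mul (G.dh y hy)))
      refine h1.congr_deriv ?_
      simp only [id, Pi.mul_apply]
      ring
    · intro y hy
      obtain ⟨q0, q1, q2, q3, q4, q5, s0, s1, s2, r0, r1, d0⟩ := A_aux hy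
      obtain ⟨a0, a1, a2, b0, b1, b2⟩ := aA_bd hy
      have hk := A_k_pos G hy
      have hg := A_g_nn G hy
      have hp := A_p_ge G y hy
      have hy0 := hy.1
      have e : aA y * k y - (aA y * k y +
          y * (-(qA' y / (2 * qA y)) * aA y * k y + aA y * (bA y * g y))) =
          y * aA y * (qA' y / (2 * qA y) * k y - bA y * g y) := by ring
      simp only [e]
      have h5 : bA y * g y ≤ qA' y / (2 * qA y) * k y := by
        calc bA y * g y ≤ bA y * (2 * y * (aA y * k y)) := by gcongr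
          _ = (y * (28 - qA y) / 4) * k y * (aA y ^ 2) / 2 := by rw [b2]; ring
          _ ≤ qA' y * k y * (aA y ^ 2) / 2 := by gcongr
          _ = _ := by rw [a1]; field_simp
      have : 0 ≤ qA' y / (2 * qA y) * k y - bA y * g y := by linarith
      positivity
    · have h1 := tendsto_of_contOn (by norm_num) G.ch G.h0
      have h2 : Tendsto (fun y : ℝ => 0.25 * √y) (𝓝[>] 0) (𝓝 0) := by
        have : ContinuousAt (fun y : ℝ => 0.25 * √y) 0 := by fun_prop
        have h3 := this.tendsto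
        simp only [sqrt_zero, mul_zero] at h3
        exact h3.mono_left nhdsWithin_le_nhds
      have := h2.mul h1
      simpa using this
    · intro y hy
      obtain ⟨q0, q1, q2, q3, q4, q5, s0, s1, s2, r0, r1, d0⟩ := A_aux hy
      obtain ⟨a0, a1, a2, b0, b1, b2⟩ := aA_bd hy
      have hk := A_k_pos G hy
      have hg := A_g_nn G hy
      have : y * (aA y * k y) ≤ 0.25 * √y * k y := by
        calc y * (aA y * k y) = (aA y * (4 * √y)) * (0.25 * √y * k y) := by
              have : y = √y * √y := by rw [← sq, r1]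
              nth_rewrite 1 [this]
              ring
          _ ≤ 1 * (0.25 * √y * k y) := by gcongr
          _ = _ := one_mul _
      linarith
  intro y hy
  linarith [key y hy]

lemma A_mono_g : MonotoneOn (fun y => y ^ 2 * (aA y * k y) / g y - 1 / 2 * y)
    (Ioc 0 (17 / 10)) := by
  refine mono_of_deriv (y1 := 173 / 100) (by norm_num)
    (D' := fun y => 2 * (y * (aA y * k y) / g y) - y * (qA' y / (2 * qA y)) *
      (y * (aA y * k y) / g y) + y ^ 2 * aA y * bA y - (y * (aA y * k y) / g y) ^ 2 - 1 / 2) ?_ ?_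
  · intro y hy
    have hg := A_g_pos G hy
    have h2 := ((((hasDerivAt_pow 2 y).mul ((aA_der hy).mul (G.dh y hy))).div
      (G.df y hy) hg.ne')).sub ((hasDerivAt_id y).const_mul ((1 : ℝ) / 2))
    refine h2.congr_deriv ?_
    simp only [Pi.mul_apply]
    field_simp
    ring
  · intro y hy
    obtain ⟨q0, q1, q2, q3, q4, q5, s0, s1, s2, r0, r1, d0⟩ := A_aux hy
    obtain ⟨a0, a1, a2, b0, b1, b2⟩ := aA_bd hy
    have hg := A_g_pos G hy
    have h1 := A_p_ge G y hy
    have h2 := A_p_le G y hy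
    have hy0 := hy.1
    set p := y * (aA y * k y) / g y with hp
    have p1 : 1 / 2 ≤ p := by
      rw [hp, le_div_iff₀ hg]; linarith
    have p2 : p ≤ 1 := by
      rw [hp, div_le_one hg]; exact h2
    have k0 : y * (qA' y / (2 * qA y)) ≤ 1 / 2 := by
      rw [mul_div_assoc', div_le_div_iff₀ (by positivity) (by norm_num)]
      linarith
    have k1 : y * (qA' y / (2 * qA y)) * p ≤ 1 / 2 * p := by gcongr
    have k2 : 0 ≤ y ^ 2 * aA y * bA y := by positivity
    have k3 : 0 ≤ (p - 1 / 2) * (1 - p) := mul_nonneg (by linarith) (by linarith)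
    nlinarith

end A2

end Pool.Agent.TH371.Apy
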