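import Pool.Agent.TH371.Apy.Ext
import Pool.Agent.TH371.Apy.MonoA
import Pool.Agent.TH590.Apy.Asm
import Pool.Agent.TH416.ApyProd
import Pool.Agent.TH499.ApyRec
import Pool.Agent.TH615.ApyClose
import Pool.Agent.TH126.ApyFin
import Pool.Agent.TH615.ApySys
import Pool.Agent.TH615.ApyRec

/-!
# The zeta(2) numbers are infinitely log-convex
-/

set_option autoImplicit false

namespace Pool.Agent.TH371.Apy

open MeasureTheory Set Real Filter Topology

lemma existsB : ∃ f h : ℝ → ℝ, Sys aB bB f h (173 / 100) 1 0 := by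
  have hbc : Continuous bB := by unfold bB; exact (continuous_const.sub qB_cont).div_const 4
  refine (Pool.Agent.TH615.Apy.exists_sys (173 / 100) 0.46 (by norm_num) aB bB ?_
    hbc.continuousOn ?_ ?_ (hbc.intervalIntegrable _ _) ?_ (by norm_num)).1
  · unfold aB
    exact continuousOn_const.div qB_cont.continuousOn fun y hy => (qB_pos hy.1 hy.2).ne'
  · intro y hy
    have := qB_pos hy.1 hy.2
    unfold aB; positivity
  · intro y hy
    have := qB_le hy.2
    unfold bB; linarith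
  · intro y hy
    have h1 : (∫ x in (0 : ℝ)..y, bB x) ≤ ∫ x in (0 : ℝ)..y, (2.5 : ℝ) := by
      apply intervalIntegral.integral_mono_on hy.1.le (hbc.intervalIntegrable _ _)
        (intervalIntegrable_const)
      intro x hx
      have h2 := qB_lin hx.1 (hx.2.trans hy.2)
      unfold bB
      linarith [hx.1]
    rw [intervalIntegral.integral_const, smul_eq_mul, sub_zero] at h1
    have h3 := qB_lin hy.1.le hy.2
    have h4 := qB_pos hy.1 hy.2
    unfold aB
    rw [one_div, inv_mul_le_iff₀ h4]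
    linarith [hy.1]

/-- lower bound for an integral against a decaying exponential -/
lemma int_lower {ψ : ℝ → ℝ} (hc : ContinuousOn ψ (Icc 0 (173 / 100)))
    (hnn : ∀ y ∈ Icc (0 : ℝ) (173 / 100), 0 ≤ ψ y) {w : ℝ} (hw : 0 ≤ w) (n : ℕ)
    (hlow : ∀ y ∈ Icc (1 / (2 * ((n : ℝ) + 1))) (1 / ((n : ℝ) + 1)), w ≤ ψ y) :
    (1 / (2 * ((n : ℝ) + 1))) * (0.36 * w) ≤
      ∫ y in (0 : ℝ)..(17 / 10), exp (-(((n : ℝ) + 1 / 2) * y)) * ψ y := by
  have hn : (0 : ℝ) ≤ n := Nat.cast_nonneg n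
  have c1 : 1 / ((n : ℝ) + 1) ≤ 1 := by rw [div_le_one (by linarith)]; linarith
  have c0 : 0 < 1 / (2 * ((n : ℝ) + 1)) := by positivity
  have c2 : 1 / (2 * ((n : ℝ) + 1)) ≤ 1 / ((n : ℝ) + 1) := by
    apply one_div_le_one_div_of_le (by linarith); linarith
  have hI : ContinuousOn (fun y => exp (-(((n : ℝ) + 1 / 2) * y)) * ψ y) (Icc 0 (17 / 10)) := by
    refine ContinuousOn.mul (by fun_prop) (hc.mono ?_)
    exact Icc_subset_Icc_right (by norm_num)
  have hint : ∀ a b : ℝ, 0 ≤ a → a ≤ b → b ≤ 17 / 10 →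
      IntervalIntegrable (fun y => exp (-(((n : ℝ) + 1 / 2) * y)) * ψ y) volume a b := by
    intro a b ha hab hb
    refine (hI.mono ?_).intervalIntegrable
    rw [uIcc_of_le hab]
    exact Icc_subset_Icc ha hb
  have hnn' : ∀ a b : ℝ, 0 ≤ a → a ≤ b → b ≤ 17 / 10 →
      0 ≤ ∫ y in a..b, exp (-(((n : ℝ) + 1 / 2) * y)) * ψ y := by
    intro a b ha hab hb
    apply intervalIntegral.integral_nonneg hab
    intro y hy
    exact mul_nonneg (exp_pos _).le (hnn y ⟨ha.trans hy.1, (hy.2.trans hb).trans (by norm_num)⟩)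
  rw [← intervalIntegral.integral_add_adjacent_intervals
      (hint 0 (1 / (2 * ((n : ℝ) + 1))) le_rfl c0.le (by linarith))
      (hint (1 / (2 * ((n : ℝ) + 1))) (17 / 10) c0.le (by linarith) le_rfl),
    ← intervalIntegral.integral_add_adjacent_intervals
      (hint (1 / (2 * ((n : ℝ) + 1))) (1 / ((n : ℝ) + 1)) c0.le c2 (by linarith))
      (hint (1 / ((n : ℝ) + 1)) (17 / 10) (by positivity) (by linarith) le_rfl)]
  have h1 := hnn' 0 (1 / (2 * ((n : ℝ) + 1))) le_rfl c0.le (by linarith)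
  have h2 := hnn' (1 / ((n : ℝ) + 1)) (17 / 10) (by positivity) (by linarith) le_rfl
  have h3 : (∫ y in (1 / (2 * ((n : ℝ) + 1)))..(1 / ((n : ℝ) + 1)), (0.36 * w)) ≤
      ∫ y in (1 / (2 * ((n : ℝ) + 1)))..(1 / ((n : ℝ) + 1)),
        exp (-(((n : ℝ) + 1 / 2) * y)) * ψ y := by
    apply intervalIntegral.integral_mono_on c2 intervalIntegrable_const
      (hint _ _ c0.le c2 (by linarith))
    intro y hy
    have e1 : (0.36 : ℝ) ≤ exp (-(((n : ℝ) + 1 / 2) * y)) := by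
      have : ((n : ℝ) + 1 / 2) * y ≤ 1 := by
        have h5 : y ≤ 1 / ((n : ℝ) + 1) := hy.2
        rw [le_div_iff₀ (by linarith)] at h5
        have : 0 ≤ y := c0.le.trans hy.1
        nlinarith
      have h6 : exp (-1) ≤ exp (-(((n : ℝ) + 1 / 2) * y)) := Real.exp_le_exp.2 (by linarith)
      have h7 : (0.36 : ℝ) ≤ exp (-1) := by
        have := Real.exp_neg_one_gt_d9; linarith
      linarith
    have := hlow y hy
    gcongr
  rw [intervalIntegral.integral_const, smul_eq_mul] at h3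
  have e : 1 / ((n : ℝ) + 1) - 1 / (2 * ((n : ℝ) + 1)) = 1 / (2 * ((n : ℝ) + 1)) := by
    field_simp; norm_num
  rw [e] at h3
  linarith

/-- upper bound for such an integral -/
lemma int_upper {ψ : ℝ → ℝ} (hc : ContinuousOn ψ (Icc 0 (173 / 100))) {W : ℝ}
    (hnn : ∀ y ∈ Icc (0 : ℝ) (17 / 10), 0 ≤ ψ y) (hup : ∀ y ∈ Icc (0 : ℝ) (17 / 10), ψ y ≤ W)
    (n : ℕ) : (∫ y in (0 : ℝ)..(17 / 10), exp (-(((n : ℝ) + 1 / 2) * y)) * ψ y) ≤ 1.7 * W := by
  have hn : (0 : ℝ) ≤ n := Nat.cast_nonneg n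
  have hI : ContinuousOn (fun y => exp (-(((n : ℝ) + 1 / 2) * y)) * ψ y) (Icc 0 (17 / 10)) := by
    refine ContinuousOn.mul (by fun_prop) (hc.mono ?_)
    exact Icc_subset_Icc_right (by norm_num)
  have h1 : (∫ y in (0 : ℝ)..(17 / 10), exp (-(((n : ℝ) + 1 / 2) * y)) * ψ y) ≤
      ∫ y in (0 : ℝ)..(17 / 10), W := by
    apply intervalIntegral.integral_mono_on (by norm_num) _ intervalIntegrable_const
    · intro y hy
      have e1 : exp (-(((n : ℝ) + 1 / 2) * y)) ≤ 1 := by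
        rw [Real.exp_le_one_iff]
        have := hy.1
        have : 0 ≤ ((n : ℝ) + 1 / 2) * y := by positivity
        linarith
      calc exp (-(((n : ℝ) + 1 / 2) * y)) * ψ y ≤ 1 * ψ y := by
            have := hnn y hy
            gcongr
        _ ≤ W := by rw [one_mul]; exact hup y hy
    · refine hI.intervalIntegrable_of_Icc (by norm_num)
  rw [intervalIntegral.integral_const, smul_eq_mul] at h1
  norm_num at h1 ⊢
  linarith

lemma mem17 : (17 / 10 : ℝ) ∈ Ioo (0 : ℝ) (173 / 100) := ⟨by norm_num, by norm_num⟩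

theorem infB : ∀ k m : ℕ, 0 < (L^[k]) (fun n => ((apB n : ℤ) : ℝ)) m := by
  obtain ⟨f, h, H⟩ := existsB
  have hf1 : ∀ y ∈ Icc (0 : ℝ) (173 / 100), 1 ≤ f y := H.fge
  have hfpos : ∀ y ∈ Ioo (0 : ℝ) (173 / 100), 0 < f y := fun y hy => by
    linarith [hf1 y ⟨hy.1.le, hy.2.le⟩]
  set F := f (17 / 10) with hF
  have hF1 : 1 ≤ F := hf1 _ ⟨by norm_num, by norm_num⟩
  have hFe : F ≤ exp (0.46 * (17 / 10)) := B_f_le H _ mem17
  have hh0 : 0 ≤ h (17 / 10) := B_h_nn H mem17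
  have hh1 : h (17 / 10) ≤ 2.5 * (17 / 10) * F := B_h_le H _ mem17
  have hq0 := qB_pos mem17.1 mem17.2.le
  have hq1 := qB_le mem17.2.le
  have hq2 := qB_lin mem17.1.le mem17.2.le
  -- the extension
  have hPhi : Phi0 1 (17 / 10) f (fun y => aB y * h y) =
      (17 / 10) ^ 2 * (aB (17 / 10) * h (17 / 10)) / F := by
    unfold Phi0; ring
  have ha0 : 0 < aB (17 / 10) := by unfold aB; positivity
  have hPhi0 : 0 ≤ Phi0 1 (17 / 10) f (fun y => aB y * h y) := by
    rw [hPhi]; positivity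
  have hah : aB (17 / 10) * h (17 / 10) ≤ 0.46 * F := by
    unfold aB
    rw [one_div, inv_mul_le_iff₀ hq0]
    nlinarith
  have hPhi1 : Phi0 1 (17 / 10) f (fun y => aB y * h y) / (17 / 10) ≤ 0.46 * (17 / 10) := by
    rw [hPhi, div_div, div_le_iff₀ (by positivity)]
    nlinarith
  obtain ⟨b, hbg, hbc⟩ := extend_good (s := 1) (y0 := 17 / 10) (y1 := 173 / 100) (ψ := f)
    (ψ' := fun y => aB y * h y) (by norm_num) le_rfl (by norm_num) (by norm_num) H.cf hfpos
    H.df (B_mono H) hPhi0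
  refine Pool.Agent.TH590.Apy.assembly
    (fun K m hK hm => Pool.Agent.TH416.ApyProd.prod_small K m hK hm)
    (fun m hm => Pool.Agent.TH416.ApyProd.prod_small_eleven m hm) _ b hbg ?_
    Pool.Agent.TH126.Apy.finB
  have hexp1 : ∀ n : ℝ, exp (-((n + 3 / 2) * (17 / 10))) =
      exp (-0.85) * exp (-(17 / 10) * (n + 1)) := by
    intro n; rw [← Real.exp_add]; congr 1; ring
  refine Pool.Agent.TH615.Apy.close_of_rec 2 le_rfl 1 tB (by norm_num) (by linarith [tB_lb])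
    (fun n => 11 * ((n : ℝ) + 1) ^ 2 + 11 * ((n : ℝ) + 1) + 3) _
    (fun n => ∫ y in (0 : ℝ)..(17 / 10), exp (-(((n : ℝ) + 1 / 2) * y)) * f y) b
    (fun n => exp (-(((n : ℝ) + 3 / 2) * (17 / 10))) *
        (((n : ℝ) + 3 / 2) * qB (17 / 10) * f (17 / 10) + h (17 / 10))) ?_ ?_ ?_ ?_ ?_ ?_ ?_ ?_
  · have : apB 0 = 1 := by decide
    rw [this]; norm_num
  · intro n
    have := growB n
    exact_mod_cast this
  · intro n
    have := recB n
    have h2 : (((n : ℤ) + 2) ^ 2 * apB (n + 2) : ℤ) =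
      (11 * ((n : ℤ) + 1) ^ 2 + 11 * ((n : ℤ) + 1) + 3) * apB (n + 1) +
      1 * ((n : ℤ) + 1) ^ 2 * apB n := by rw [this]; ring
    exact_mod_cast h2
  · intro n
    have := Pool.Agent.TH615.Apy.recP_B H n
    exact this
  · intro n
    have hn : (0 : ℝ) ≤ n := Nat.cast_nonneg n
    have h1 := int_lower (ψ := f) H.cf (fun y hy => by linarith [hf1 y hy]) (w := 1) (by norm_num) n
      (fun y hy => hf1 y ⟨le_trans (by positivity) hy.1, hy.2.trans (by
        have : 1 / ((n : ℝ) + 1) ≤ 1 := by rw [div_le_one (by linarith)]; linarith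
        linarith)⟩)
    have h2 : 0 < (n : ℝ) + 1 := by linarith
    have h3 : 100 * ((n : ℝ) + 1) ^ 2 * ((1 / (2 * ((n : ℝ) + 1))) * (0.36 * 1)) =
        18 * ((n : ℝ) + 1) := by field_simp; norm_num
    have h4 : 100 * ((n : ℝ) + 1) ^ 2 * ((1 / (2 * ((n : ℝ) + 1))) * (0.36 * 1)) ≤
        100 * ((n : ℝ) + 1) ^ 2 *
          ∫ y in (0 : ℝ)..(17 / 10), exp (-(((n : ℝ) + 1 / 2) * y)) * f y := by gcongr
    rw [h3] at h4
    linarith
  · intro n
    have hn : (0 : ℝ) ≤ n := Nat.cast_nonneg n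
    rw [hexp1, ← hF]
    have h1 : 0 ≤ ((n : ℝ) + 3 / 2) * qB (17 / 10) * F + h (17 / 10) := by positivity
    rw [abs_of_nonneg (by positivity)]
    have h2 : ((n : ℝ) + 3 / 2) * qB (17 / 10) * F + h (17 / 10) ≤
        exp (0.46 * (17 / 10)) * (9.6 * ((n : ℝ) + 3 / 2) + 4.25) := by
      calc ((n : ℝ) + 3 / 2) * qB (17 / 10) * F + h (17 / 10)
          ≤ ((n : ℝ) + 3 / 2) * 9.6 * F + 2.5 * (17 / 10) * F := by gcongr
        _ = F * (9.6 * ((n : ℝ) + 3 / 2) + 4.25) := by ring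
        _ ≤ _ := by gcongr
    have h3 : exp (-0.85) * exp (0.46 * (17 / 10)) ≤ 1 := by
      rw [← Real.exp_add, Real.exp_le_one_iff]; norm_num
    calc exp (-0.85) * exp (-(17 / 10) * ((n : ℝ) + 1)) *
          (((n : ℝ) + 3 / 2) * qB (17 / 10) * F + h (17 / 10))
        ≤ exp (-0.85) * exp (-(17 / 10) * ((n : ℝ) + 1)) *
          (exp (0.46 * (17 / 10)) * (9.6 * ((n : ℝ) + 3 / 2) + 4.25)) := by gcongr
      _ = (exp (-0.85) * exp (0.46 * (17 / 10))) * ((9.6 * ((n : ℝ) + 3 / 2) + 4.25) *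
          exp (-(17 / 10) * ((n : ℝ) + 1))) := by ring
      _ ≤ 1 * ((9.6 * ((n : ℝ) + 3 / 2) + 4.25) * exp (-(17 / 10) * ((n : ℝ) + 1))) := by gcongr
      _ ≤ 20 * ((n : ℝ) + 2) ^ 2 * exp (-(17 / 10) * ((n : ℝ) + 1)) := by
        rw [one_mul]
        gcongr
        nlinarith
  · have hW : ∀ y ∈ Icc (0 : ℝ) (17 / 10), f y ≤ 2.72 := by
      intro y hy
      rcases hy.1.eq_or_lt with h0 | h0
      · rw [← h0, H.f0]; norm_num
      · have h1 := B_f_le H y ⟨h0, by linarith [hy.2]⟩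
        have h2 : exp (0.46 * y) ≤ exp 1 := Real.exp_le_exp.2 (by linarith [hy.2])
        have := Real.exp_one_lt_d9
        linarith
    have hnn : ∀ y ∈ Icc (0 : ℝ) (17 / 10), 0 ≤ f y := fun y hy => by
      linarith [hf1 y ⟨hy.1, by linarith [hy.2]⟩]
    have u0 := int_upper H.cf hnn hW 0
    have u1 := int_upper H.cf hnn hW 1
    have n0 : 0 ≤ ∫ y in (0 : ℝ)..(17 / 10), exp (-((((0 : ℕ) : ℝ) + 1 / 2) * y)) * f y :=
      intervalIntegral.integral_nonneg (by norm_num) fun y hy =>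
        mul_nonneg (exp_pos _).le (hnn y hy)
    have n1 : 0 ≤ ∫ y in (0 : ℝ)..(17 / 10), exp (-((((1 : ℕ) : ℝ) + 1 / 2) * y)) * f y :=
      intervalIntegral.integral_nonneg (by norm_num) fun y hy =>
        mul_nonneg (exp_pos _).le (hnn y hy)
    have e0 : apB 0 = 1 := by decide
    have e1 : apB 1 = 3 := by decide
    rw [e0, e1]
    push_cast at *
    have t1 := tB_ub
    have t0 := tB_pos
    set P0 := ∫ y in (0 : ℝ)..(17 / 10), exp (-((0 + 1 / 2) * y)) * f y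
    set P1 := ∫ y in (0 : ℝ)..(17 / 10), exp (-((1 + 1 / 2) * y)) * f y
    have a1 : tB * P1 ≤ 11.0902 * (1.7 * 2.72) := by gcongr
    have a2 : 0 ≤ tB * P1 := by positivity
    rw [abs_le]
    constructor <;> norm_num at * <;> linarith
  · intro n hn
    have h1 := hbc n hn
    refine h1.trans ?_
    have e1 : exp (-(((n : ℝ) + 1 / 2) * (17 / 10))) = exp (-0.85) * exp (-(17 / 10) * (n : ℝ)) := by
      rw [← Real.exp_add]; congr 1; ring
    rw [e1]
    have h2 : exp (Phi0 1 (17 / 10) f (fun y => aB y * h y) / (17 / 10)) ≤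
        exp (0.46 * (17 / 10)) := Real.exp_le_exp.2 hPhi1
    have h3 : exp (0.46 * (17 / 10)) * exp (0.46 * (17 / 10)) * exp (-0.85) ≤ 2.72 := by
      rw [← Real.exp_add, ← Real.exp_add]
      have h4 : exp (0.46 * (17 / 10) + 0.46 * (17 / 10) + -0.85) ≤ exp 1 :=
        Real.exp_le_exp.2 (by norm_num)
      have := Real.exp_one_lt_d9
      linarith
    calc 2 * (f (17 / 10) * exp (Phi0 1 (17 / 10) f (fun y => aB y * h y) / (17 / 10))) *
          (exp (-0.85) * exp (-(17 / 10) * (n : ℝ)))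
        ≤ 2 * (exp (0.46 * (17 / 10)) * exp (0.46 * (17 / 10))) *
          (exp (-0.85) * exp (-(17 / 10) * (n : ℝ))) := by gcongr
      _ = 2 * (exp (0.46 * (17 / 10)) * exp (0.46 * (17 / 10)) * exp (-0.85)) *
          exp (-(17 / 10) * (n : ℝ)) := by ring
      _ ≤ 2 * 2.72 * exp (-(17 / 10) * (n : ℝ)) := by gcongr
      _ ≤ 10 * exp (-(17 / 10) * (n : ℝ)) := by gcongr; norm_num

end Pool.Agent.TH371.Apy
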