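import Pool.Agent.TH371.Apy.Defs

/-!
# Laplace transforms with an edge exponent are closed under the log-convexity operator
-/

set_option autoImplicit false

namespace Pool.Agent.TH371.Apy

open MeasureTheory Set Real Module

/-- the basic ratio -/
noncomputable def lam (z : ℝ) : ℝ := z ^ 2 / ((z - 1) * (z + 1))

lemma lam_pos {z : ℝ} (hz : 1 < z) : 0 < lam z := by
  unfold lam
  have h1 : 0 < z - 1 := by linarith
  positivity

lemma one_le_lam {z : ℝ} (hz : 1 < z) : 1 ≤ lam z := by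
  unfold lam
  have h1 : 0 < (z - 1) * (z + 1) := by nlinarith
  rw [le_div_iff₀ h1]
  nlinarith

lemma convexOn_sinh : ConvexOn ℝ (Ici (0 : ℝ)) sinh := by
  refine MonotoneOn.convexOn_of_deriv (convex_Ici 0) continuous_sinh.continuousOn
    differentiable_sinh.differentiableOn ?_
  rw [interior_Ici, Real.deriv_sinh]
  intro x hx y hy hxy
  exact Real.cosh_le_cosh.2 (by rw [abs_of_pos hx, abs_of_pos hy]; exact hxy)

lemma sinh_ratio {x y : ℝ} (hx : 0 ≤ x) (hy : 0 < y) (hxy : x ≤ y) :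
    y * sinh x ≤ x * sinh y := by
  have ha : 0 ≤ x / y := by positivity
  have hb : 0 ≤ 1 - x / y := by rw [sub_nonneg, div_le_one hy]; exact hxy
  have hab : x / y + (1 - x / y) = 1 := by ring
  have h := convexOn_sinh.2 (mem_Ici.2 hy.le) (mem_Ici.2 (le_refl (0 : ℝ))) ha hb hab
  simp only [smul_eq_mul, mul_zero, add_zero, sinh_zero] at h
  rw [div_mul_cancel₀ _ hy.ne'] at h
  calc y * sinh x ≤ y * (x / y * sinh y) := by gcongr
    _ = x * sinh y := by field_simp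

lemma sinh_prod_aux {m δ x : ℝ} (hδ : 0 ≤ δ) (hδm : δ < m) (hx : 0 < x) (hxm : x ≤ m) :
    (m + δ) * (m - δ) * sinh x ^ 2 ≤ x ^ 2 * (sinh (m + δ) * sinh (m - δ)) := by
  have hm : 0 < m := by linarith
  have e : sinh (m + δ) * sinh (m - δ) = sinh m ^ 2 - sinh δ ^ 2 := by
    rw [sinh_add, sinh_sub]
    have h1 := Real.cosh_sq m
    have h2 := Real.cosh_sq δ
    linear_combination (sinh m ^ 2) * h2 - (sinh δ ^ 2) * h1
  rw [e]
  have h1 := sinh_ratio hδ hm hδm.le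
  have h2 := sinh_ratio hx.le hm hxm
  have s0 : 0 ≤ sinh δ := Real.sinh_nonneg_iff.2 hδ
  have s1 : 0 ≤ sinh x := Real.sinh_nonneg_iff.2 hx.le
  have h1' : m ^ 2 * sinh δ ^ 2 ≤ δ ^ 2 * sinh m ^ 2 := by
    have := pow_le_pow_left₀ (by positivity) h1 2
    simpa [mul_pow] using this
  have h2' : m ^ 2 * sinh x ^ 2 ≤ x ^ 2 * sinh m ^ 2 := by
    have := pow_le_pow_left₀ (by positivity) h2 2
    simpa [mul_pow] using this
  have h3 : (m ^ 2 - δ ^ 2) * (m ^ 2 * sinh x ^ 2) ≤ (m ^ 2 - δ ^ 2) * (x ^ 2 * sinh m ^ 2) := by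
    apply mul_le_mul_of_nonneg_left h2'
    nlinarith
  have h4 : x ^ 2 * (m ^ 2 * sinh δ ^ 2) ≤ x ^ 2 * (δ ^ 2 * sinh m ^ 2) := by
    apply mul_le_mul_of_nonneg_left h1' (by positivity)
  have hm2 : 0 < m ^ 2 := by positivity
  have : m ^ 2 * ((m + δ) * (m - δ) * sinh x ^ 2) ≤ m ^ 2 * (x ^ 2 * (sinh m ^ 2 - sinh δ ^ 2)) := by
    nlinarith
  exact le_of_mul_le_mul_left this hm2

lemma sinh_lc {z D : ℝ} (hz : 1 < z) (hD : 0 < D) :
    lam z * sinh (D / z) ^ 2 ≤ sinh (D / (z - 1)) * sinh (D / (z + 1)) := by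
  have h1 : 0 < z - 1 := by linarith
  have h2 : 0 < z + 1 := by linarith
  have h0 : 0 < z := by linarith
  set m := D * z / ((z - 1) * (z + 1)) with hm
  set δ := D / ((z - 1) * (z + 1)) with hδ
  have e1 : m + δ = D / (z - 1) := by
    rw [hm, hδ]; field_simp
  have e2 : m - δ = D / (z + 1) := by
    rw [hm, hδ]; field_simp
  have hδ0 : 0 ≤ δ := by positivity
  have hδm : δ < m := by
    have : 0 < m - δ := by rw [e2]; positivity
    linarith
  have hxm : D / z ≤ m := by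
    rw [hm, div_le_div_iff₀ h0 (by positivity)]
    nlinarith [mul_pos hD h0]
  have := sinh_prod_aux hδ0 hδm (x := D / z) (by positivity) hxm
  rw [e1, e2] at this
  have hD2 : 0 < D ^ 2 / z ^ 2 := by positivity
  have e3 : D / (z - 1) * (D / (z + 1)) = D ^ 2 / z ^ 2 * lam z := by
    unfold lam; field_simp
  rw [e3, div_pow, mul_assoc] at this
  exact le_of_mul_le_mul_left this hD2

lemma cosh_sub_one (x : ℝ) : cosh x - 1 = 2 * sinh (x / 2) ^ 2 := by
  have h := Real.cosh_two_mul (x / 2)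
  rw [show 2 * (x / 2) = x by ring] at h
  have h2 := Real.cosh_sq (x / 2)
  linarith

lemma cosh_lc {z : ℝ} (hz : 1 < z) (D : ℝ) :
    lam z ^ 2 * (cosh (D / z) - 1) ^ 2 ≤ (cosh (D / (z - 1)) - 1) * (cosh (D / (z + 1)) - 1) := by
  wlog hD : 0 ≤ D with H
  · have := H hz (-D) (by linarith)
    simpa [neg_div, Real.cosh_neg] using this
  rcases hD.eq_or_lt with h0 | hD
  · subst h0; simp
  rw [cosh_sub_one, cosh_sub_one, cosh_sub_one]
  have h := sinh_lc hz (D := D / 2) (by positivity)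
  have e : ∀ w : ℝ, D / w / 2 = D / 2 / w := fun w => by ring
  rw [e, e, e]
  have l0 := lam_pos hz
  have := pow_le_pow_left₀ (by positivity) h 2
  nlinarith [this]

/-- The class: `F` is a Laplace transform of a density on a finite dimensional space which is
log-convex along the scalings, with exponent `c`. -/
def Good (F : ℝ → ℝ) (z0 c : ℝ) : Prop :=
  ∃ (E : Type) (_ : NormedAddCommGroup E) (_ : NormedSpace ℝ E) (_ : FiniteDimensional ℝ E)
    (_ : MeasurableSpace E) (_ : BorelSpace E) (μ : Measure E) (_ : μ.IsAddHaarMeasure)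
    (T w : E → ℝ),
    (∀ (r : ℝ) (v : E), T (r • v) = r * T v) ∧ (∀ v, 0 ≤ w v) ∧
    (∀ z, z0 < z → Integrable (fun v => exp (-(z * T v)) * w v) μ) ∧
    (∀ z, z0 < z → F z = ∫ v, exp (-(z * T v)) * w v ∂μ) ∧
    (∀ z, 1 < z → ∀ v, lam z ^ (c - (finrank ℝ E : ℝ)) * w (z⁻¹ • v) ^ 2 ≤
      w ((z - 1)⁻¹ • v) * w ((z + 1)⁻¹ • v))

lemma cs_aux {A B C : ℝ} (hA : 0 ≤ A) (hB : 0 ≤ B) (hC : 0 ≤ C)
    (h : ∀ t : ℝ, 0 < t → 2 * C ≤ t * A + t⁻¹ * B) : C ^ 2 ≤ A * B := by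
  by_contra hlt
  push Not at hlt
  have hC0 : 0 < C := by
    rcases hC.eq_or_lt with h0 | h0
    · subst h0
      have : 0 ≤ A * B := mul_nonneg hA hB
      nlinarith
    · exact h0
  set η := (C ^ 2 - A * B) / (2 * (A + 1)) with hη
  have hη0 : 0 < η := by
    rw [hη]; apply div_pos (by linarith) (by linarith)
  have h1 : (B + η) * A < C ^ 2 := by
    have : η * A ≤ (C ^ 2 - A * B) / 2 := by
      rw [hη, div_mul_eq_mul_div, div_le_div_iff₀ (by linarith) (by norm_num)]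
      nlinarith
    nlinarith
  have ht : 0 < (B + η) / C := by positivity
  have h2 := h _ ht
  have h3 : (B + η) / C * A < C := by
    rw [div_mul_eq_mul_div, div_lt_iff₀ hC0]; nlinarith
  have h4 : ((B + η) / C)⁻¹ * B < C := by
    rw [inv_div, div_mul_eq_mul_div, div_lt_iff₀ (by positivity)]
    nlinarith
  linarith

theorem Good.ineq {F : ℝ → ℝ} {z0 c : ℝ} (hF : Good F z0 c) (h0 : 0 ≤ z0) {z : ℝ}
    (hz : z0 + 1 < z) : lam z ^ c * F z ^ 2 ≤ F (z - 1) * F (z + 1) := by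
  obtain ⟨E, i1, i2, i3, i4, i5, μ, i6, T, w, hT, hw, hI, hFe, hLC⟩ := hF
  have hz1 : 1 < z := by linarith
  have hlam := lam_pos hz1
  set d := finrank ℝ E with hd
  have key : ∀ y : ℝ, z0 < y → Integrable (fun v => exp (-(T v)) * w (y⁻¹ • v)) μ ∧
      (∫ v, exp (-(T v)) * w (y⁻¹ • v) ∂μ) = y ^ d * F y := by
    intro y hy
    have hy0 : 0 < y := by linarith
    have e : (fun v => exp (-(y * T v)) * w v) =
        fun v => (fun u => exp (-(T u)) * w (y⁻¹ • u)) (y • v) := by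
      funext v
      simp only [hT, smul_smul, inv_mul_cancel₀ hy0.ne', one_smul]
    have h1 := hI y hy
    rw [e] at h1
    have h2 := hFe y hy
    rw [e, Measure.integral_comp_smul μ (fun u => exp (-(T u)) * w (y⁻¹ • u)) y, ← hd] at h2
    refine ⟨(integrable_comp_smul_iff μ _ hy0.ne').1 h1, ?_⟩
    rw [h2, smul_eq_mul, abs_of_pos (by positivity), ← mul_assoc, mul_inv_cancel₀ (by positivity),
      one_mul]
  obtain ⟨a1, a2⟩ := key (z - 1) (by linarith)
  obtain ⟨b1, b2⟩ := key (z + 1) (by linarith)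
  obtain ⟨c1, c2⟩ := key z (by linarith)
  set κ := lam z ^ ((c - d) / 2) with hκ
  have hκ0 : 0 ≤ κ := by positivity
  have hκ2 : κ ^ 2 = lam z ^ (c - d) := by
    rw [hκ, ← Real.rpow_natCast, ← Real.rpow_mul hlam.le]; congr 1; push_cast; ring
  have hcs := cs_aux (A := ∫ v, exp (-(T v)) * w ((z - 1)⁻¹ • v) ∂μ)
    (B := ∫ v, exp (-(T v)) * w ((z + 1)⁻¹ • v) ∂μ)
    (C := κ * ∫ v, exp (-(T v)) * w (z⁻¹ • v) ∂μ)
    (integral_nonneg fun v => mul_nonneg (exp_pos _).le (hw _))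
    (integral_nonneg fun v => mul_nonneg (exp_pos _).le (hw _))
    (mul_nonneg hκ0 (integral_nonneg fun v => mul_nonneg (exp_pos _).le (hw _))) (by
      intro t ht
      rw [← integral_const_mul, ← integral_const_mul, ← integral_const_mul, ← integral_const_mul,
        ← integral_add (a1.const_mul t) (b1.const_mul t⁻¹)]
      apply integral_mono ((c1.const_mul _).const_mul _)
        ((a1.const_mul t).add (b1.const_mul t⁻¹))
      intro v
      simp only [Pi.add_apply]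
      have hl := hLC z hz1 v
      have hA := hw ((z - 1)⁻¹ • v)
      have hB := hw ((z + 1)⁻¹ • v)
      have hC := hw (z⁻¹ • v)
      rw [← hκ2] at hl
      have he := exp_pos (-(T v))
      set A := w ((z - 1)⁻¹ • v)
      set B := w ((z + 1)⁻¹ • v)
      set C := w (z⁻¹ • v)
      have ht' : 0 < t⁻¹ := by positivity
      have htt : t * t⁻¹ = 1 := mul_inv_cancel₀ ht.ne'
      have h5 : 2 * (κ * C) ≤ t * A + t⁻¹ * B := by
        apply le_of_sq_le_sq _ (by positivity)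
        have : (t * A + t⁻¹ * B) ^ 2 = (t * A - t⁻¹ * B) ^ 2 + 4 * (t * t⁻¹) * (A * B) := by ring
        rw [this, htt]
        nlinarith [sq_nonneg (t * A - t⁻¹ * B)]
      calc 2 * (κ * (exp (-(T v)) * C)) = exp (-(T v)) * (2 * (κ * C)) := by ring
        _ ≤ exp (-(T v)) * (t * A + t⁻¹ * B) := by gcongr
        _ = _ := by ring)
  rw [a2, b2, c2] at hcs
  have hz2 : 0 < (z - 1) * (z + 1) := by nlinarith
  have h6 : lam z ^ c = κ ^ 2 * lam z ^ d := by
    rw [hκ2, ← Real.rpow_natCast (lam z) d, ← Real.rpow_add hlam]; congr 1; ring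
  rw [h6]
  have h7 : lam z ^ d * ((z - 1) * (z + 1)) ^ d = (z ^ d) ^ 2 := by
    rw [← mul_pow]
    unfold lam
    rw [div_mul_cancel₀ _ hz2.ne']
    ring
  have h8 : 0 < ((z - 1) * (z + 1)) ^ d := by positivity
  have h9 : (κ ^ 2 * lam z ^ d * F z ^ 2) * ((z - 1) * (z + 1)) ^ d ≤
      (F (z - 1) * F (z + 1)) * ((z - 1) * (z + 1)) ^ d := by
    calc (κ ^ 2 * lam z ^ d * F z ^ 2) * ((z - 1) * (z + 1)) ^ d
        = κ ^ 2 * F z ^ 2 * (lam z ^ d * ((z - 1) * (z + 1)) ^ d) := by ring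
      _ = (κ * (z ^ d * F z)) ^ 2 := by rw [h7]; ring
      _ ≤ (z - 1) ^ d * F (z - 1) * ((z + 1) ^ d * F (z + 1)) := hcs
      _ = _ := by rw [mul_pow]; ring
  exact le_of_mul_le_mul_right h9 h8

theorem Good.step {F : ℝ → ℝ} {z0 c : ℝ} (hF : Good F z0 c) :
    Good (fun z => F (z - 1) * F (z + 1) - F z ^ 2) (z0 + 1) (2 * c + 2) := by
  obtain ⟨E, i1, i2, i3, i4, i5, μ, i6, T, w, hT, hw, hI, hFe, hLC⟩ := hF
  have : ProperSpace E := FiniteDimensional.proper_real E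
  have hdec : ∀ z : ℝ, (fun p : E × E => exp (-(z * (T p.1 + T p.2))) *
      (w p.1 * w p.2 * (cosh (T p.1 - T p.2) - 1))) = fun p : E × E =>
      2⁻¹ * ((exp (-((z - 1) * T p.1)) * w p.1) * (exp (-((z + 1) * T p.2)) * w p.2)) +
      2⁻¹ * ((exp (-((z + 1) * T p.1)) * w p.1) * (exp (-((z - 1) * T p.2)) * w p.2)) -
      (exp (-(z * T p.1)) * w p.1) * (exp (-(z * T p.2)) * w p.2) := by
    intro z
    funext p
    rw [Real.cosh_eq]
    have e1 : exp (-(z * (T p.1 + T p.2))) * exp (T p.1 - T p.2) =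
        exp (-((z - 1) * T p.1)) * exp (-((z + 1) * T p.2)) := by
      rw [← exp_add, ← exp_add]; congr 1; ring
    have e2 : exp (-(z * (T p.1 + T p.2))) * exp (-(T p.1 - T p.2)) =
        exp (-((z + 1) * T p.1)) * exp (-((z - 1) * T p.2)) := by
      rw [← exp_add, ← exp_add]; congr 1; ring
    have e3 : exp (-(z * (T p.1 + T p.2))) =
        exp (-(z * T p.1)) * exp (-(z * T p.2)) := by
      rw [← exp_add]; congr 1; ring
    calc exp (-(z * (T p.1 + T p.2))) *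
          (w p.1 * w p.2 * ((exp (T p.1 - T p.2) + exp (-(T p.1 - T p.2))) / 2 - 1))
        = 2⁻¹ * (exp (-(z * (T p.1 + T p.2))) * exp (T p.1 - T p.2)) * (w p.1 * w p.2) +
          2⁻¹ * (exp (-(z * (T p.1 + T p.2))) * exp (-(T p.1 - T p.2))) * (w p.1 * w p.2) -
          exp (-(z * (T p.1 + T p.2))) * (w p.1 * w p.2) := by ring
      _ = _ := by rw [e1, e2, e3]; ring
  refine ⟨E × E, inferInstance, inferInstance, inferInstance, inferInstance, inferInstance,
    μ.prod μ, inferInstance, fun p => T p.1 + T p.2,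
    fun p => w p.1 * w p.2 * (cosh (T p.1 - T p.2) - 1), ?_, ?_, ?_, ?_, ?_⟩
  · intro r p
    simp only [Prod.smul_fst, Prod.smul_snd, hT]
    ring
  · intro p
    exact mul_nonneg (mul_nonneg (hw _) (hw _)) (by linarith [Real.one_le_cosh (T p.1 - T p.2)])
  · intro z hz
    simp only [hdec z]
    have h1 := hI (z - 1) (by linarith)
    have h2 := hI (z + 1) (by linarith)
    have h3 := hI z (by linarith)
    exact (((h1.mul_prod h2).const_mul 2⁻¹).add ((h2.mul_prod h1).const_mul 2⁻¹)).sub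
      (h3.mul_prod h3)
  · intro z hz
    simp only [hdec z]
    have h1 := hI (z - 1) (by linarith)
    have h2 := hI (z + 1) (by linarith)
    have h3 := hI z (by linarith)
    have k1 := integral_prod_mul (μ := μ) (ν := μ) (fun v => exp (-((z - 1) * T v)) * w v)
      (fun v => exp (-((z + 1) * T v)) * w v)
    have k2 := integral_prod_mul (μ := μ) (ν := μ) (fun v => exp (-((z + 1) * T v)) * w v)
      (fun v => exp (-((z - 1) * T v)) * w v)
    have k3 := integral_prod_mul (μ := μ) (ν := μ) (fun v => exp (-(z * T v)) * w v)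
      (fun v => exp (-(z * T v)) * w v)
    rw [integral_sub, integral_add, integral_const_mul, integral_const_mul, k1, k2, k3,
      ← hFe _ (by linarith), ← hFe _ (by linarith), ← hFe _ (by linarith)]
    · ring
    · exact (h1.mul_prod h2).const_mul 2⁻¹
    · exact (h2.mul_prod h1).const_mul 2⁻¹
    · exact ((h1.mul_prod h2).const_mul 2⁻¹).add ((h2.mul_prod h1).const_mul 2⁻¹)
    · exact h3.mul_prod h3
  · intro z hz p
    have hlam := lam_pos hz
    simp only [Prod.smul_fst, Prod.smul_snd, hT]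
    have a1 := hLC z hz p.1
    have a2 := hLC z hz p.2
    have a3 := cosh_lc hz (T p.1 - T p.2)
    have e : ∀ y : ℝ, y⁻¹ * T p.1 - y⁻¹ * T p.2 = (T p.1 - T p.2) / y := fun y => by
      rw [div_eq_inv_mul]; ring
    rw [e, e, e]
    have hpow : lam z ^ (2 * c + 2 - (finrank ℝ (E × E) : ℝ)) =
        lam z ^ (c - (finrank ℝ E : ℝ)) * lam z ^ (c - (finrank ℝ E : ℝ)) * lam z ^ 2 := by
      rw [← Real.rpow_natCast, ← Real.rpow_add hlam, ← Real.rpow_add hlam]
      congr 1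
      rw [Module.finrank_prod]
      push_cast
      ring
    rw [hpow]
    have b0 : 0 ≤ lam z ^ (c - (finrank ℝ E : ℝ)) := by positivity
    have ha : ∀ y : ℝ, 0 ≤ cosh y - 1 := fun y => by linarith [Real.one_le_cosh y]
    calc lam z ^ (c - (finrank ℝ E : ℝ)) * lam z ^ (c - (finrank ℝ E : ℝ)) * lam z ^ 2 *
          (w (z⁻¹ • p.1) * w (z⁻¹ • p.2) * (cosh ((T p.1 - T p.2) / z) - 1)) ^ 2
        = (lam z ^ (c - (finrank ℝ E : ℝ)) * w (z⁻¹ • p.1) ^ 2) *
          (lam z ^ (c - (finrank ℝ E : ℝ)) * w (z⁻¹ • p.2) ^ 2) *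
          (lam z ^ 2 * (cosh ((T p.1 - T p.2) / z) - 1) ^ 2) := by ring
      _ ≤ (w ((z - 1)⁻¹ • p.1) * w ((z + 1)⁻¹ • p.1)) *
          (w ((z - 1)⁻¹ • p.2) * w ((z + 1)⁻¹ • p.2)) *
          ((cosh ((T p.1 - T p.2) / (z - 1)) - 1) * (cosh ((T p.1 - T p.2) / (z + 1)) - 1)) := by
        gcongr
        · exact mul_nonneg (mul_nonneg (hw _) (hw _)) (mul_nonneg (hw _) (hw _))
        · exact mul_nonneg (hw _) (hw _)
      _ = _ := by ring

/-- iterates as functions of a real variable -/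
noncomputable def Fit (F : ℝ → ℝ) : ℕ → ℝ → ℝ
  | 0 => F
  | k + 1 => fun z => Fit F k (z - 1) * Fit F k (z + 1) - Fit F k z ^ 2

lemma good_fit {F : ℝ → ℝ} {c : ℝ} (hF : Good F 0 c) (k : ℕ) :
    Good (Fit F k) k ((c + 2) * 2 ^ k - 2) := by
  induction k with
  | zero => simpa [Fit] using hF
  | succ k ih =>
    have := ih.step
    have e : 2 * ((c + 2) * 2 ^ k - 2) + 2 = (c + 2) * 2 ^ (k + 1) - 2 := by ring
    rw [e] at this
    rw [show ((k + 1 : ℕ) : ℝ) = (k : ℝ) + 1 by push_cast; ring]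
    exact this

lemma exp_le_lam {z : ℝ} (hz : 1 < z) : exp (1 / z ^ 2) ≤ lam z := by
  have h0 : 0 < z := by linarith
  have h1 : 0 < (z - 1) * (z + 1) := by nlinarith
  have h2 := Real.add_one_le_exp (-(1 / z ^ 2))
  have h3 : (lam z)⁻¹ = -(1 / z ^ 2) + 1 := by
    unfold lam; field_simp; ring
  rw [← h3, Real.exp_neg] at h2
  exact (inv_le_inv₀ (lam_pos hz) (exp_pos _)).1 h2

lemma exp_le_lam_rpow {z c : ℝ} (hz : 1 < z) (hc : 0 ≤ c) : exp (c / z ^ 2) ≤ lam z ^ c := by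
  have h := Real.rpow_le_rpow (exp_pos _).le (exp_le_lam hz) hc
  rwa [← Real.exp_mul, one_div_mul_eq_div] at h

lemma cc_le {c : ℝ} (hc : 1 ≤ c) (k : ℕ) : cc k ≤ (c + 2) * 2 ^ k - 2 := by
  unfold cc
  have : (0 : ℝ) < 2 ^ k := by positivity
  nlinarith

lemma cc_pos (k : ℕ) : 0 < cc k := by
  unfold cc
  have : (1 : ℝ) ≤ 2 ^ k := one_le_pow₀ (by norm_num)
  linarith

lemma fit_pos {F : ℝ → ℝ} {c : ℝ} (hc : 1 ≤ c) (hF : Good F 0 c) (hpos : ∀ z, 0 < z → 0 < F z)
    (k : ℕ) : ∀ z : ℝ, (k : ℝ) < z → 0 < Fit F k z := by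
  induction k with
  | zero => intro z hz; exact hpos z (by simpa using hz)
  | succ k ih =>
    intro z hz
    push_cast at hz
    have hk0 : (0 : ℝ) ≤ k := Nat.cast_nonneg k
    have h1 := (good_fit hF k).ineq hk0 hz
    have h2 := ih z (by linarith)
    have hz1 : 1 < z := by linarith
    have h3 := exp_le_lam_rpow (c := (c + 2) * 2 ^ k - 2) hz1
      (by linarith [cc_le hc k, cc_pos k])
    have h4 : 1 < exp (((c + 2) * 2 ^ k - 2) / z ^ 2) := by
      rw [Real.one_lt_exp_iff]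
      have := cc_le hc k
      have := cc_pos k
      apply div_pos (by linarith) (by positivity)
    show 0 < Fit F k (z - 1) * Fit F k (z + 1) - Fit F k z ^ 2
    have h5 : 0 < Fit F k z ^ 2 := by positivity
    nlinarith

lemma iter_eq {F : ℝ → ℝ} (k : ℕ) : ∀ m : ℕ,
    (L^[k]) (fun m : ℕ => F ((m : ℝ) + 1 / 2)) m = Fit F k ((m : ℝ) + k + 1 / 2) := by
  induction k with
  | zero => intro m; simp [Fit]
  | succ k ih =>
    intro m
    rw [Function.iterate_succ_apply']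
    show _ * _ - _ ^ 2 = Fit F k _ * Fit F k _ - Fit F k _ ^ 2
    rw [ih, ih, ih]
    have e1 : ((m + 1 : ℕ) : ℝ) + k + 1 / 2 = (m : ℝ) + ((k + 1 : ℕ) : ℝ) + 1 / 2 := by
      push_cast; ring
    have e2 : ((m + 2 : ℕ) : ℝ) + k + 1 / 2 = (m : ℝ) + ((k + 1 : ℕ) : ℝ) + 1 / 2 + 1 := by
      push_cast; ring
    have e3 : (m : ℝ) + k + 1 / 2 = (m : ℝ) + ((k + 1 : ℕ) : ℝ) + 1 / 2 - 1 := by
      push_cast; ring
    rw [e1, e2, e3]

/-- A positive function of the class gives a good sequence. -/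
theorem goodSeq_of_good {F : ℝ → ℝ} {c : ℝ} (hc : 1 ≤ c) (hF : Good F 0 c)
    (hpos : ∀ z, 0 < z → 0 < F z) : GoodSeq (fun m : ℕ => F ((m : ℝ) + 1 / 2)) := by
  intro k m
  have hm0 : (0 : ℝ) ≤ m := Nat.cast_nonneg m
  have hk0 : (0 : ℝ) ≤ k := Nat.cast_nonneg k
  rw [iter_eq, iter_eq, iter_eq]
  refine ⟨fit_pos hc hF hpos k _ (by linarith), ?_⟩
  have h := (good_fit hF k).ineq hk0 (z := (m : ℝ) + k + 3 / 2) (by linarith)
  have h2 := exp_le_lam_rpow (c := (c + 2) * 2 ^ k - 2) (z := (m : ℝ) + k + 3 / 2)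
      (by linarith) (by linarith [cc_le hc k, cc_pos k])
  have h3 : exp (cc k / ((m : ℝ) + k + 3 / 2) ^ 2) ≤
      exp (((c + 2) * 2 ^ k - 2) / ((m : ℝ) + k + 3 / 2) ^ 2) := by
    apply Real.exp_le_exp.2
    have := cc_le hc k
    gcongr
  have e1 : ((m + 1 : ℕ) : ℝ) + k + 1 / 2 = (m : ℝ) + k + 3 / 2 := by push_cast; ring
  have e2 : ((m + 2 : ℕ) : ℝ) + k + 1 / 2 = (m : ℝ) + k + 3 / 2 + 1 := by push_cast; ring
  have e3 : (m : ℝ) + k + 1 / 2 = (m : ℝ) + k + 3 / 2 - 1 := by ring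
  rw [e1, e2, e3]
  refine le_trans ?_ h
  gcongr
  exact h3.trans h2

end Pool.Agent.TH371.Apy
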