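import Pool.Agent.TH371.Apy.QFacts

/-!
# Monotonicity for the zeta(2) density
-/

set_option autoImplicit false

namespace Pool.Agent.TH371.Apy

open MeasureTheory Set Real Filter Topology

/-- A function with nonnegative derivative which is at least `-G` with `G → 0` at the origin is
nonnegative. -/
lemma nonneg_of_deriv {D D' G : ℝ → ℝ} {y1 : ℝ}
    (hD : ∀ y ∈ Ioo 0 y1, HasDerivAt D (D' y) y) (hD' : ∀ y ∈ Ioo 0 y1, 0 ≤ D' y)
    (hG : Tendsto G (𝓝[>] 0) (𝓝 0)) (hDG : ∀ y ∈ Ioo 0 y1, -G y ≤ D y) :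
    ∀ y ∈ Ioo 0 y1, 0 ≤ D y := by
  have hm : MonotoneOn D (Ioo 0 y1) := by
    refine monotoneOn_of_deriv_nonneg (convex_Ioo _ _)
      (fun x hx => (hD x hx).continuousAt.continuousWithinAt) ?_ ?_
    · intro x hx
      rw [interior_Ioo] at hx
      exact (hD x hx).differentiableAt.differentiableWithinAt
    · intro x hx
      rw [interior_Ioo] at hx
      rw [(hD x hx).deriv]
      exact hD' x hx
  intro y hy
  have h1 : Tendsto (fun x => -G x) (𝓝[>] 0) (𝓝 0) := by simpa using hG.neg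
  refine le_of_tendsto h1 ?_
  filter_upwards [Ioo_mem_nhdsGT hy.1] with x hx
  have hx' : x ∈ Ioo 0 y1 := ⟨hx.1, hx.2.trans hy.2⟩
  exact (hDG x hx').trans (hm hx' hy hx.2.le)

/-- monotonicity from a nonnegative derivative on the left half open interval -/
lemma mono_of_deriv {D D' : ℝ → ℝ} {y0 y1 : ℝ} (h01 : y0 < y1)
    (hD : ∀ y ∈ Ioo 0 y1, HasDerivAt D (D' y) y) (hD' : ∀ y ∈ Ioo 0 y1, 0 ≤ D' y) :
    MonotoneOn D (Ioc 0 y0) := by
  have hm : MonotoneOn D (Ioo 0 y1) := by
    refine monotoneOn_of_deriv_nonneg (convex_Ioo _ _)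
      (fun x hx => (hD x hx).continuousAt.continuousWithinAt) ?_ ?_
    · intro x hx
      rw [interior_Ioo] at hx
      exact (hD x hx).differentiableAt.differentiableWithinAt
    · intro x hx
      rw [interior_Ioo] at hx
      rw [(hD x hx).deriv]
      exact hD' x hx
  exact hm.mono fun x hx => ⟨hx.1, hx.2.trans_lt h01⟩

lemma tendsto_of_contOn {f : ℝ → ℝ} {y1 c : ℝ} (hy1 : 0 < y1) (h : ContinuousOn f (Icc 0 y1))
    (h0 : f 0 = c) : Tendsto f (𝓝[>] 0) (𝓝 c) := by
  have h1 := h 0 ⟨le_rfl, hy1.le⟩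
  rw [← h0]
  have h2 : 𝓝[>] (0 : ℝ) ≤ 𝓝[Icc 0 y1] 0 := by
    rw [← nhdsWithin_Ioo_eq_nhdsGT hy1]
    exact nhdsWithin_mono _ Ioo_subset_Icc_self
  exact h1.mono_left h2

lemma B_aux {y : ℝ} (hy : y ∈ Ioo (0 : ℝ) (173 / 100)) : 0 < qB y ∧ 5.5 * y ≤ qB y ∧ qB y ≤ 9.6 ∧
    y * qB' y ≤ qB y :=
  ⟨qB_pos hy.1 hy.2.le, qB_lin hy.1.le hy.2.le, qB_le hy.2.le, qB_conc hy.1.le hy.2.le⟩

section B

variable {f h : ℝ → ℝ} (H : Sys aB bB f h (173 / 100) 1 0)

include H

lemma B_f_pos {y : ℝ} (hy : y ∈ Ioo (0 : ℝ) (173 / 100)) : 1 ≤ f y := H.fge y ⟨hy.1.le, hy.2.le⟩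

lemma B_h_nn {y : ℝ} (hy : y ∈ Ioo (0 : ℝ) (173 / 100)) : 0 ≤ h y := H.hge y ⟨hy.1.le, hy.2.le⟩

lemma B_h_le : ∀ y ∈ Ioo (0 : ℝ) (173 / 100), h y ≤ 2.5 * y * f y := by
  have key : ∀ y ∈ Ioo (0 : ℝ) (173 / 100), 0 ≤ 2.5 * y * f y - h y := by
    refine nonneg_of_deriv (D' := fun y => 2.5 * f y + 2.5 * y * (aB y * h y) - bB y * f y)
      (G := h) ?_ ?_ (tendsto_of_contOn (by norm_num) H.ch H.h0) ?_
    · intro y hy
      have h1 := (((hasDerivAt_id y).const_mul 2.5).mul (H.df y hy)).sub (H.dh y hy)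
      refine h1.congr_deriv ?_
      simp only [id]
      ring
    · intro y hy
      obtain ⟨q0, q1, q2, q3⟩ := B_aux hy
      have hf := B_f_pos H hy
      have hh := B_h_nn H hy
      have ha : 0 ≤ aB y := by unfold aB; positivity
      have hb : bB y ≤ 2.5 := by unfold bB; linarith
      have hy0 := hy.1
      have : 0 ≤ 2.5 * y * (aB y * h y) := by positivity
      nlinarith
    · intro y hy
      have hf := B_f_pos H hy
      have hy0 := hy.1
      have : 0 ≤ 2.5 * y * f y := by positivity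
      linarith
  intro y hy
  linarith [key y hy]

lemma B_f_le : ∀ y ∈ Ioo (0 : ℝ) (173 / 100), f y ≤ exp (0.46 * y) := by
  have key : ∀ y ∈ Ioo (0 : ℝ) (173 / 100), 0 ≤ 1 - f y * exp (-(0.46 * y)) := by
    refine nonneg_of_deriv (D' := fun y =>
      -(aB y * h y * exp (-(0.46 * y)) + f y * (exp (-(0.46 * y)) * -0.46)))
      (G := fun y => f y * exp (-(0.46 * y)) - 1) ?_ ?_ ?_ ?_
    · intro y hy
      have h0 : HasDerivAt (fun y : ℝ => -(0.46 * y)) (-0.46) y := by
        have := ((hasDerivAt_id y).const_mul (0.46 : ℝ)).fun_neg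
        simpa using this
      have h1 := ((H.df y hy).mul h0.exp).const_sub 1
      exact h1
    · intro y hy
      obtain ⟨q0, q1, q2, q3⟩ := B_aux hy
      have hf := B_f_pos H hy
      have hh := B_h_le H y hy
      have hy0 := hy.1
      have : aB y * h y ≤ 0.46 * f y := by
        unfold aB
        rw [one_div, inv_mul_le_iff₀ q0]
        nlinarith
      have he := exp_pos (-(0.46 * y))
      nlinarith
    · have h1 := tendsto_of_contOn (by norm_num) H.cf H.f0
      have h2 : Tendsto (fun y : ℝ => exp (-(0.46 * y))) (𝓝[>] 0) (𝓝 1) := by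
        have : ContinuousAt (fun y : ℝ => exp (-(0.46 * y))) 0 := by fun_prop
        have h3 := this.tendsto
        simp only [mul_zero, neg_zero, exp_zero] at h3
        exact h3.mono_left nhdsWithin_le_nhds
      have := (h1.mul h2).sub_const 1
      simpa using this
    · intro y hy
      linarith
  intro y hy
  have h1 := key y hy
  have h2 : f y * exp (-(0.46 * y)) ≤ 1 := by linarith
  rw [Real.exp_neg, ← div_eq_mul_inv, div_le_one (exp_pos _)] at h2
  exact h2

lemma B_mono : MonotoneOn (fun y => y ^ 2 * (aB y * h y) / f y - (1 - 1) * y) (Ioc 0 (17 / 10)) := by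
  refine mono_of_deriv (y1 := 173 / 100) (by norm_num)
    (D' := fun y => ((y * h y * (2 * qB y * f y - y * qB' y * f y - y * h y) +
      y ^ 2 * bB y * f y ^ 2 * qB y) / (qB y * f y) ^ 2)) ?_ ?_
  · intro y hy
    obtain ⟨q0, q1, q2, q3⟩ := B_aux hy
    have hf := B_f_pos H hy
    have hf0 : f y ≠ 0 := by positivity
    have h1 : HasDerivAt aB (-qB' y / qB y ^ 2) y := by
      have := (qB_der y).fun_inv q0.ne'
      unfold aB
      simpa [one_div] using this
    have h2 := ((((hasDerivAt_pow 2 y).mul (h1.mul (H.dh y hy))).div (H.df y hy) hf0)).sub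
      ((hasDerivAt_id y).const_mul ((1 : ℝ) - 1))
    refine h2.congr_deriv ?_
    have e : aB y = 1 / qB y := rfl
    simp only [Pi.mul_apply, e]
    field_simp
    ring
  · intro y hy
    obtain ⟨q0, q1, q2, q3⟩ := B_aux hy
    have hf := B_f_pos H hy
    have hh := B_h_nn H hy
    have hh2 := B_h_le H y hy
    have hy0 := hy.1
    have hy1 := hy.2
    have hb : 0 ≤ bB y := by unfold bB; linarith
    have k1 : 0 ≤ 2 * qB y * f y - y * qB' y * f y - y * h y := by
      have a1 : y * qB' y * f y ≤ qB y * f y := by gcongr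
      have a2 : y * h y ≤ y * (2.5 * y * f y) := by gcongr
      have a3 : 0 ≤ (qB y - 2.5 * y ^ 2) * f y := by
        apply mul_nonneg _ (by linarith)
        nlinarith
      nlinarith
    positivity

end B

end Pool.Agent.TH371.Apy
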