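import Pool.Agent.TH371.Apy.Sys

/-!
# Elementary facts on the coefficient functions
-/

set_option autoImplicit false

namespace Pool.Agent.TH371.Apy

open MeasureTheory Set Real

lemma exp173_lb : (5.640 : ℝ) ≤ exp (173 / 100) := by
  have h := Real.sum_le_exp_of_nonneg (x := 173 / 200) (by norm_num) 8
  have e : exp (173 / 100 : ℝ) = exp (173 / 200) ^ 2 := by
    rw [← Real.exp_nat_mul]; norm_num
  rw [e]
  have h2 : (2.37490 : ℝ) ≤ exp (173 / 200) := by
    refine le_trans ?_ h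
    norm_num [Finset.sum_range_succ, Nat.factorial]
  nlinarith

lemma exp173_ub : exp (173 / 100 : ℝ) ≤ 5.641 := by
  have h := Real.exp_bound' (x := 173 / 200) (by norm_num) (by norm_num) (n := 9) (by norm_num)
  have e : exp (173 / 100 : ℝ) = exp (173 / 200) ^ 2 := by
    rw [← Real.exp_nat_mul]; norm_num
  rw [e]
  have h2 : exp (173 / 200 : ℝ) ≤ 2.37507 := by
    refine le_trans h ?_
    norm_num [Finset.sum_range_succ, Nat.factorial]
  have h0 := exp_pos (173 / 200 : ℝ)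
  nlinarith

lemma tB_lb : (11.09 : ℝ) ≤ tB := by
  unfold tB
  have : (2.236 : ℝ) ≤ √5 := Real.le_sqrt_of_sq_le (by norm_num)
  linarith

lemma tB_ub : tB ≤ 11.0902 := by
  unfold tB
  have : √5 ≤ (2.23607 : ℝ) := by
    rw [Real.sqrt_le_left (by norm_num)]; norm_num
  linarith

lemma tA_lb : (33.97 : ℝ) ≤ tA := by
  unfold tA
  have : (1.4142 : ℝ) ≤ √2 := Real.le_sqrt_of_sq_le (by norm_num)
  linarith

lemma tA_ub : tA ≤ 33.9706 := by
  unfold tA
  have : √2 ≤ (1.414216 : ℝ) := by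
    rw [Real.sqrt_le_left (by norm_num)]; norm_num
  linarith

lemma tB_pos : 0 < tB := by linarith [tB_lb]

lemma tA_pos : 0 < tA := by linarith [tA_lb]

lemma tB_eq : tB - 1 / tB = 11 := by
  have h := tB_pos
  have h5 : √5 ^ 2 = 5 := Real.sq_sqrt (by norm_num)
  field_simp
  unfold tB
  nlinarith

lemma tA_eq : tA + 1 / tA = 34 := by
  have h := tA_pos
  have h5 : √2 ^ 2 = 2 := Real.sq_sqrt (by norm_num)
  field_simp
  unfold tA
  nlinarith

lemma tB_inv : 1 / tB = tB - 11 := by linarith [tB_eq]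

lemma tA_inv : 1 / tA = 34 - tA := by linarith [tA_eq]

lemma qB_der (y : ℝ) : HasDerivAt qB (qB' y) y := by
  have h1 : HasDerivAt (fun y : ℝ => exp (-y)) (exp (-y) * -1) y := (hasDerivAt_neg y).exp
  have h2 := ((h1.const_sub 1).const_mul tB).add (((Real.hasDerivAt_exp y).sub_const 1).div_const tB)
  refine h2.congr_deriv ?_
  unfold qB'; ring

lemma qA_der (y : ℝ) : HasDerivAt qA (qA' y) y := by
  have h1 : HasDerivAt (fun y : ℝ => exp (-y)) (exp (-y) * -1) y := (hasDerivAt_neg y).exp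
  have h2 := ((h1.const_sub 1).const_mul tA).sub (((Real.hasDerivAt_exp y).sub_const 1).div_const tA)
  refine h2.congr_deriv ?_
  unfold qA'; ring

lemma qB_zero : qB 0 = 0 := by unfold qB; simp

lemma qA_zero : qA 0 = 0 := by unfold qA; simp

lemma qB_cont : Continuous qB := continuous_iff_continuousAt.2 fun y => (qB_der y).continuousAt

lemma qA_cont : Continuous qA := continuous_iff_continuousAt.2 fun y => (qA_der y).continuousAt

lemma exp_neg_173 {y : ℝ} (h : y ≤ 173 / 100) : 1 / 5.641 ≤ exp (-y) := by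
  rw [Real.exp_neg, ← one_div]
  apply one_div_le_one_div_of_le (exp_pos y)
  exact (Real.exp_le_exp.2 h).trans exp173_ub

lemma exp_le_173 {y : ℝ} (h : y ≤ 173 / 100) : exp y ≤ 5.641 :=
  (Real.exp_le_exp.2 h).trans exp173_ub

lemma qB'_pos (y : ℝ) : 0 < qB' y := by
  have := tB_pos
  unfold qB'; positivity

lemma qA'_ge {y : ℝ} (h : y ≤ 173 / 100) : 5.8 ≤ qA' y := by
  unfold qA'
  have h1 := exp_neg_173 h
  have h2 := exp_le_173 h
  have h3 := tA_lb
  have h4 : exp y / tA ≤ 5.641 / 33.97 := by gcongr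
  have h5 : (33.97 : ℝ) * (1 / 5.641) ≤ tA * exp (-y) := by gcongr
  have h6 : (5.8 : ℝ) ≤ 33.97 * (1 / 5.641) - 5.641 / 33.97 := by norm_num
  linarith

/-- `y q' ≤ q` -/
lemma qB_conc {y : ℝ} (h0 : 0 ≤ y) (h : y ≤ 173 / 100) : y * qB' y ≤ qB y := by
  have h1 := exp_neg_173 h
  have h2 := exp_le_173 h
  have h3 := tB_lb
  have hpos := tB_pos
  have e1 : exp (-y) * exp y = 1 := by rw [← Real.exp_add]; simp
  have k1 : y ^ 2 / 2 ≤ exp y - 1 - y := by
    have := Real.quadratic_le_exp_of_nonneg h0; linarith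
  -- exp (-y) - 1 + y ≤ y^2/2
  have k2 : exp (-y) - 1 + y ≤ y ^ 2 / 2 := by
    have := Real.quadratic_le_exp_of_nonneg h0
    have hE := exp_pos y
    have hE' := exp_pos (-y)
    have : exp (-y) * (1 + y + y ^ 2 / 2) ≤ 1 := by
      calc exp (-y) * (1 + y + y ^ 2 / 2) ≤ exp (-y) * exp y := by gcongr
        _ = 1 := e1
    have h8 : 1 ≤ (1 - y + y ^ 2 / 2) * (1 + y + y ^ 2 / 2) := by nlinarith [sq_nonneg (y ^ 2)]
    have h9 : 0 < 1 + y + y ^ 2 / 2 := by positivity
    have : exp (-y) ≤ 1 - y + y ^ 2 / 2 := by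
      have : exp (-y) * (1 + y + y ^ 2 / 2) ≤ (1 - y + y ^ 2 / 2) * (1 + y + y ^ 2 / 2) := by
        linarith
      exact le_of_mul_le_mul_right this h9
    linarith
  have e2 : qB y - y * qB' y = tB * (exp (-y) * (exp y - 1 - y)) -
      (1 / tB) * (exp y * (exp (-y) - 1 + y)) := by
    unfold qB qB'
    have : exp (-y) * (exp y - 1 - y) = 1 - (1 + y) * exp (-y) := by linear_combination e1
    rw [this]
    have : exp y * (exp (-y) - 1 + y) = 1 - exp y + y * exp y := by linear_combination e1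
    rw [this]
    ring
  have l1 : 11.09 * (1 / 5.641 * (y ^ 2 / 2)) ≤ tB * (exp (-y) * (exp y - 1 - y)) := by
    gcongr
  have l2 : (1 / tB) * (exp y * (exp (-y) - 1 + y)) ≤ (1 / 11.09) * (5.641 * (y ^ 2 / 2)) := by
    have : 0 ≤ exp (-y) - 1 + y := by linarith [Real.add_one_le_exp (-y)]
    gcongr
  have : (1 / 11.09 : ℝ) * (5.641 * (y ^ 2 / 2)) ≤ 11.09 * (1 / 5.641 * (y ^ 2 / 2)) := by
    nlinarith [sq_nonneg y]
  linarith

lemma qA_conc {y : ℝ} (h0 : 0 ≤ y) : y * qA' y ≤ qA y := by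
  have hpos := tA_pos
  have e1 : exp (-y) * exp y = 1 := by rw [← Real.exp_add]; simp
  have e2 : qA y - y * qA' y = tA * (exp (-y) * (exp y - 1 - y)) +
      (1 / tA) * (exp y * (exp (-y) - 1 + y)) := by
    unfold qA qA'
    have : exp (-y) * (exp y - 1 - y) = 1 - (1 + y) * exp (-y) := by linear_combination e1
    rw [this]
    have : exp y * (exp (-y) - 1 + y) = 1 - exp y + y * exp y := by linear_combination e1
    rw [this]
    ring
  have a1 : 0 ≤ exp y - 1 - y := by linarith [Real.add_one_le_exp y]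
  have a2 : 0 ≤ exp (-y) - 1 + y := by linarith [Real.add_one_le_exp (-y)]
  have : 0 ≤ tA * (exp (-y) * (exp y - 1 - y)) + (1 / tA) * (exp y * (exp (-y) - 1 + y)) := by
    positivity
  linarith

lemma qB_173 : 5.5 * (173 / 100) ≤ qB (173 / 100) := by
  unfold qB
  have h1 := exp173_lb
  have h3 := tB_lb
  have h4 := tB_ub
  have hpos := tB_pos
  have h5 : exp (-(173 / 100 : ℝ)) ≤ 1 / 5.640 := by
    rw [Real.exp_neg, ← one_div]
    exact one_div_le_one_div_of_le (by norm_num) h1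
  have h6 : 11.09 * (1 - 1 / 5.640) ≤ tB * (1 - exp (-(173 / 100 : ℝ))) := by
    gcongr
  have h70 : 0 ≤ exp (173 / 100 : ℝ) - 1 := by linarith
  have h7 : (5.640 - 1) / 11.0902 ≤ (exp (173 / 100 : ℝ) - 1) / tB := by gcongr
  have h8 : 5.5 * (173 / 100) ≤ (11.09 * (1 - 1 / 5.640) + (5.640 - 1) / 11.0902 : ℝ) := by
    norm_num
  linarith

lemma qA_173 : 16 * (173 / 100) ≤ qA (173 / 100) := by
  unfold qA
  have h1 := exp173_lb
  have h2 := exp173_ub
  have h3 := tA_lb
  have hpos := tA_pos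
  have h5 : exp (-(173 / 100 : ℝ)) ≤ 1 / 5.640 := by
    rw [Real.exp_neg, ← one_div]
    exact one_div_le_one_div_of_le (by norm_num) h1
  have h6 : 33.97 * (1 - 1 / 5.640) ≤ tA * (1 - exp (-(173 / 100 : ℝ))) := by
    gcongr
  have h7 : (exp (173 / 100 : ℝ) - 1) / tA ≤ (5.641 - 1) / 33.97 := by gcongr
  have h8 : 16 * (173 / 100) ≤ (33.97 * (1 - 1 / 5.640) - (5.641 - 1) / 33.97 : ℝ) := by
    norm_num
  linarith

lemma ratio_anti {q q' : ℝ → ℝ} (hd : ∀ y, HasDerivAt q (q' y) y)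
    (hc : ∀ y, 0 ≤ y → y ≤ 173 / 100 → y * q' y ≤ q y) {y : ℝ} (h0 : 0 < y)
    (h : y ≤ 173 / 100) : q (173 / 100) / (173 / 100) ≤ q y / y := by
  have hA : AntitoneOn (fun y => q y / y) (Ioc 0 (173 / 100)) := by
    have hder : ∀ x ∈ Ioc (0 : ℝ) (173 / 100),
        HasDerivAt (fun y => q y / y) ((q' x * x - q x * 1) / x ^ 2) x := fun x hx =>
      (hd x).div (hasDerivAt_id x) hx.1.ne'
    refine antitoneOn_of_deriv_nonpos (convex_Ioc 0 _)
      (fun x hx => (hder x hx).continuousAt.continuousWithinAt) ?_ ?_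
    · intro x hx
      rw [interior_Ioc] at hx
      exact (hder x ⟨hx.1, hx.2.le⟩).differentiableAt.differentiableWithinAt
    · intro x hx
      rw [interior_Ioc] at hx
      rw [(hder x ⟨hx.1, hx.2.le⟩).deriv]
      apply div_nonpos_of_nonpos_of_nonneg _ (sq_nonneg x)
      have := hc x hx.1.le hx.2.le
      linarith
  exact hA ⟨h0, h⟩ ⟨by norm_num, le_rfl⟩ h

lemma qB_lin {y : ℝ} (h0 : 0 ≤ y) (h : y ≤ 173 / 100) : 5.5 * y ≤ qB y := by
  rcases h0.eq_or_lt with h00 | h0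
  · subst h00; rw [qB_zero]; norm_num
  have h1 := ratio_anti qB_der (fun y a b => qB_conc a b) h0 h
  have h2 : (5.5 : ℝ) ≤ qB (173 / 100) / (173 / 100) := by
    rw [le_div_iff₀ (by norm_num)]; exact qB_173
  have h3 : 5.5 ≤ qB y / y := h2.trans h1
  rwa [le_div_iff₀ h0] at h3

lemma qA_lin {y : ℝ} (h0 : 0 ≤ y) (h : y ≤ 173 / 100) : 16 * y ≤ qA y := by
  rcases h0.eq_or_lt with h00 | h0
  · subst h00; rw [qA_zero]; norm_num
  have h1 := ratio_anti qA_der (fun y a _ => qA_conc a) h0 h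
  have h2 : (16 : ℝ) ≤ qA (173 / 100) / (173 / 100) := by
    rw [le_div_iff₀ (by norm_num)]; exact qA_173
  have h3 : 16 ≤ qA y / y := h2.trans h1
  rwa [le_div_iff₀ h0] at h3

lemma qB_pos {y : ℝ} (h0 : 0 < y) (h : y ≤ 173 / 100) : 0 < qB y := by
  have := qB_lin h0.le h
  linarith

lemma qA_pos {y : ℝ} (h0 : 0 < y) (h : y ≤ 173 / 100) : 0 < qA y := by
  have := qA_lin h0.le h
  linarith

lemma qB_le {y : ℝ} (h : y ≤ 173 / 100) : qB y ≤ 9.6 := by
  unfold qB
  have h1 := exp_neg_173 h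
  have h2 := exp_le_173 h
  have h3 := tB_lb
  have h4 := tB_ub
  have hpos := tB_pos
  rcases le_total 1 (exp y) with h5 | h5
  · have h6 : tB * (1 - exp (-y)) ≤ 11.0902 * (1 - 1 / 5.641) := by
      have : exp (-y) ≤ 1 := by
        rw [Real.exp_le_one_iff]; linarith [Real.one_le_exp_iff.1 h5]
      have h7 : 0 ≤ 1 - exp (-y) := by linarith
      gcongr
    have h7 : (exp y - 1) / tB ≤ (5.641 - 1) / 11.09 := by
      have : 0 ≤ exp y - 1 := by linarith
      gcongr
    have h8 : (11.0902 * (1 - 1 / 5.641) + (5.641 - 1) / 11.09 : ℝ) ≤ 9.6 := by norm_num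
    linarith
  · have h6 : tB * (1 - exp (-y)) ≤ 0 := by
      have : 1 ≤ exp (-y) := by
        rw [Real.one_le_exp_iff]
        have := Real.exp_le_one_iff.1 h5
        linarith
      nlinarith
    have h7 : (exp y - 1) / tB ≤ 0 := div_nonpos_of_nonpos_of_nonneg (by linarith) hpos.le
    linarith

lemma qA_le {y : ℝ} (h0 : 0 ≤ y) (h : y ≤ 173 / 100) : qA y ≤ 27.9 := by
  have hm : MonotoneOn qA (Icc 0 (173 / 100)) := by
    refine monotoneOn_of_deriv_nonneg (convex_Icc _ _) qA_cont.continuousOn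
      (fun x _ => (qA_der x).differentiableAt.differentiableWithinAt) ?_
    intro x hx
    rw [interior_Icc] at hx
    rw [(qA_der x).deriv]
    linarith [qA'_ge hx.2.le]
  have h1 := hm ⟨h0, h⟩ ⟨by norm_num, le_rfl⟩ h
  refine h1.trans ?_
  unfold qA
  have k1 := exp_neg_173 (y := 173 / 100) le_rfl
  have k2 := exp173_lb
  have k3 := tA_ub
  have hpos := tA_pos
  have h6 : tA * (1 - exp (-(173 / 100 : ℝ))) ≤ 33.9706 * (1 - 1 / 5.641) := by
    have : exp (-(173 / 100 : ℝ)) ≤ 1 := by rw [Real.exp_le_one_iff]; norm_num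
    have h7 : 0 ≤ 1 - exp (-(173 / 100 : ℝ)) := by linarith
    gcongr
  have h70 : 0 ≤ exp (173 / 100 : ℝ) - 1 := by linarith
  have h7 : (5.640 - 1) / 33.9706 ≤ (exp (173 / 100 : ℝ) - 1) / tA := by gcongr
  have h8 : (33.9706 * (1 - 1 / 5.641) - (5.640 - 1) / 33.9706 : ℝ) ≤ 27.9 := by norm_num
  linarith

lemma qB_up {y : ℝ} (h0 : 0 ≤ y) (h : y ≤ 173 / 100) : qB y ≤ 12 * y := by
  unfold qB
  have hpos := tB_pos
  have h4 := tB_ub
  have h3 := tB_lb
  have a1 : 1 - exp (-y) ≤ y := by linarith [Real.add_one_le_exp (-y)]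
  have a0 : 0 ≤ 1 - exp (-y) := by
    have : exp (-y) ≤ 1 := by rw [Real.exp_le_one_iff]; linarith
    linarith
  have a2 : exp y - 1 ≤ 5.641 * y := by
    have h5 := exp_le_173 h
    have e1 : exp (-y) * exp y = 1 := by rw [← Real.exp_add]; simp
    have : exp y - 1 = exp y * (1 - exp (-y)) := by linear_combination e1
    rw [this]
    gcongr
  have b1 : tB * (1 - exp (-y)) ≤ 11.0902 * y := by gcongr
  have b2 : (exp y - 1) / tB ≤ 5.641 * y / 11.09 := by
    have : 0 ≤ exp y - 1 := by linarith [Real.add_one_le_exp y]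
    gcongr
  have : 5.641 * y / 11.09 ≤ 0.9 * y := by
    rw [div_le_iff₀ (by norm_num)]; nlinarith
  linarith

lemma qA_up {y : ℝ} (h0 : 0 ≤ y) : qA y ≤ 34 * y := by
  unfold qA
  have hpos := tA_pos
  have h4 := tA_ub
  have a1 : 1 - exp (-y) ≤ y := by linarith [Real.add_one_le_exp (-y)]
  have b1 : tA * (1 - exp (-y)) ≤ tA * y := by gcongr
  have b3 : tA * y ≤ 33.9706 * y := by gcongr
  have b2 : 0 ≤ (exp y - 1) / tA := by
    have : 0 ≤ exp y - 1 := by linarith [Real.add_one_le_exp y]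
    positivity
  linarith

/-- the inequality that makes the second solution concave -/
lemma qA_V {y : ℝ} (h0 : 0 ≤ y) (h : y ≤ 173 / 100) : y * (28 - qA y) / 4 ≤ qA' y := by
  have h1 := qA_lin h0 h
  have h2 := qA'_ge h
  have h3 : y * (28 - qA y) ≤ y * (28 - 16 * y) := by gcongr
  nlinarith [sq_nonneg (y - 7 / 8)]

end Pool.Agent.TH371.Apy
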