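import Pool.Agent.TH371.Apy.Defs

/-!
# Linear systems with a singular point at the origin; the coefficient functions
-/

set_option autoImplicit false

namespace Pool.Agent.TH371.Apy

open MeasureTheory Set Real

/-- the growth rate of the zeta(2) numbers -/
noncomputable def tB : ℝ := (11 + 5 * √5) / 2

/-- the growth rate of the zeta(3) numbers -/
noncomputable def tA : ℝ := 17 + 12 * √2

/-- coefficient function for `B` -/
noncomputable def qB (y : ℝ) : ℝ := tB * (1 - exp (-y)) + (exp y - 1) / tB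

/-- derivative of `qB` -/
noncomputable def qB' (y : ℝ) : ℝ := tB * exp (-y) + exp y / tB

/-- coefficient function for `A` -/
noncomputable def qA (y : ℝ) : ℝ := tA * (1 - exp (-y)) - (exp y - 1) / tA

/-- derivative of `qA` -/
noncomputable def qA' (y : ℝ) : ℝ := tA * exp (-y) - exp y / tA

noncomputable def aB (y : ℝ) : ℝ := 1 / qB y

noncomputable def bB (y : ℝ) : ℝ := (10 - qB y) / 4

noncomputable def aA (y : ℝ) : ℝ := 1 / √(qA y)

noncomputable def bA (y : ℝ) : ℝ := (28 - qA y) / (16 * √(qA y))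

/-- `f' = a h`, `h' = b f` on `(0, y1)`, continuous up to the ends, with initial values. -/
structure Sys (a b f h : ℝ → ℝ) (y1 c0 d0 : ℝ) : Prop where
  cf : ContinuousOn f (Icc 0 y1)
  ch : ContinuousOn h (Icc 0 y1)
  f0 : f 0 = c0
  h0 : h 0 = d0
  df : ∀ y ∈ Ioo 0 y1, HasDerivAt f (a y * h y) y
  dh : ∀ y ∈ Ioo 0 y1, HasDerivAt h (b y * f y) y
  fge : ∀ y ∈ Icc 0 y1, c0 ≤ f y
  hge : ∀ y ∈ Icc 0 y1, d0 ≤ h y

end Pool.Agent.TH371.Apy
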